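import Pool.Agent.D0H23.PP.Stm2

set_option autoImplicit false

/-!
# Project PP, version 4: the right exponent `n ^ (1 - 2 β - ε)` for the number of quadruples
-/

namespace Pool.Agent.D0H23.PP

open Finset Filter MeasureTheory ProbabilityTheory

/-- **BC3** (`t_BC3 : S_TWO → S_BC3`). As BC2 (D0H23/PP/Bc2.lean) with `s = ⌈#M n ^ (- b - e)⌉`, `r = ⌈#M n ^ (- 2 b - 2 e)⌉`. -/
def S_BC3 : Prop := ∀ a b e : ℝ, 0 < b → 0 < e → 0 < a - 2 * b - 2 * e →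
  ∀ (Ω : Type) [MeasurableSpace Ω] (μ : Measure Ω) [IsProbabilityMeasure μ] (Y : ℕ → Ω → ℕ),
  (∀ k, Measurable (Y k)) → iIndepFun Y μ → ∀ C C' M : ℕ → Finset ℕ, (∀ n, Disjoint (C n) (C' n)) →
  (∀ᶠ n : ℕ in atTop, Odd n → (n : ℝ) ^ a ≤ (M n).card ∧ (M n).card ≤ 8 * n ∧ ∀ t ∈ M n, 2 ≤ t ∧
    (n : ℝ) ^ (-b) ≤ ∑ k ∈ C n, μ.real {ω | Y k ω = t} ∧
    (n : ℝ) ^ (-b) ≤ ∑ k ∈ C' n, μ.real {ω | Y k ω = t - 2}) →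
  ∀ᵐ ω ∂μ, ∀ᶠ n : ℕ in atTop, Odd n →
    ((M n).card : ℝ) * (n : ℝ) ^ (-(2 * b) - 2 * e) ≤ (hit2 (C n) (C' n) (M n) (fun k => Y k ω)).card

/-- **VAL3** (`t_VAL3 : S_UNI → S_MULT2 → S_VAL3`). As VAL2 (D0H23/PP/Val2.lean), after a pigeonhole choice of the dyadic
size `m₀ = 2 ^ j` of the number of `X ∈ S` with `pf X = m`. -/
def S_VAL3 : Prop := ∀ ε : ℝ, 0 < ε → ε ≤ 1 → ∃ δ : ℝ, 0 < δ ∧ δ < 1 ∧ ∀ᶠ n : ℕ in atTop, Odd n →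
  ∃ (M : Finset ℕ) (m₀ : ℕ), (n : ℝ) ^ (1 / 2 - ε) ≤ M.card ∧ M.card ≤ 8 * n ∧
    (n : ℝ) ^ (1 - ε) ≤ (M.card : ℝ) * m₀ ∧
    ∀ m ∈ M, n ≤ m ∧ m ≤ 7 * n ∧ rough δ m ∧ rough δ (m - 2) ∧
      ∃ F : Finset (Fin 4 → ℤ), m₀ ≤ F.card ∧ ∀ X ∈ F, ∑ i, X i ^ 2 = n ∧ pf X = m

end Pool.Agent.D0H23.PP
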