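import Pool.Agent.D0H23.PP.Stm

set_option autoImplicit false

/-!
# Project PP, quantitative form (strengthening in place of MP_0ad054_nt.SparselyPerturbedPrimes)

THEOREM (final). For all `β < 1/4` and `ε > 0` it is enough to move at most `X ^ (1 - β)` of the primes up to `X`, and almost
surely every large odd `n` has at least `n ^ (1/2 - 2 β - ε)` quadruples. New in comparison with `Stm.lean`: only the first
`2 ^ cc2` primes of each short interval are moved; exponents. AV, TWO, EX stay. Adapt your own modules.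
-/

namespace Pool.Agent.D0H23.PP

open Finset Filter MeasureTheory ProbabilityTheory

/-- **3 BC2** (15 min; theorem `t_BC2 : S_TWO → S_BC2`). As BC, with `s = ⌈n ^ (a - b - e)⌉`, `r = ⌈n ^ (a - 2 b - 2 e)⌉`:
`s log (K + 1) = o (n ^ (a - b))`, `r log (K + 1) = o (n ^ (a - 2 b - e))`. -/
def S_BC2 : Prop := ∀ a b e : ℝ, 0 < b → 0 < e → a ≤ 1 → 0 < a - 2 * b - 2 * e →
  ∀ (Ω : Type) [MeasurableSpace Ω] (μ : Measure Ω) [IsProbabilityMeasure μ] (Y : ℕ → Ω → ℕ),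
  (∀ k, Measurable (Y k)) → iIndepFun Y μ → ∀ C C' M : ℕ → Finset ℕ, (∀ n, Disjoint (C n) (C' n)) →
  (∀ᶠ n : ℕ in atTop, Odd n → (n : ℝ) ^ a ≤ (M n).card ∧ (M n).card ≤ 8 * n ∧ ∀ t ∈ M n, 2 ≤ t ∧
    (n : ℝ) ^ (-b) ≤ ∑ k ∈ C n, μ.real {ω | Y k ω = t} ∧
    (n : ℝ) ^ (-b) ≤ ∑ k ∈ C' n, μ.real {ω | Y k ω = t - 2}) →
  ∀ᵐ ω ∂μ, ∀ᶠ n : ℕ in atTop, Odd n →
    (n : ℝ) ^ (a - 2 * b - 2 * e) ≤ (hit2 (C n) (C' n) (M n) (fun k => Y k ω)).card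

/-- **4 MULT2** (5 min; theorem `t_MULT2 : S_DIV → S_MULT2`). As MULT, with every `ε`. -/
def S_MULT2 : Prop := ∀ ε : ℝ, 0 < ε → ∃ C : ℝ, 0 < C ∧ ∀ n : ℕ, 1 ≤ n → ∀ (m : ℤ) (F : Finset (Fin 4 → ℤ)),
  (∀ X ∈ F, ∑ i, X i ^ 2 = n ∧ pf X = m) → (F.card : ℝ) ≤ C * (n : ℝ) ^ (1 / 2 + ε)

/-- **5 VAL2** (10 min; theorem `t_VAL2 : S_UNI → S_MULT2 → S_VAL2`). As VAL, with every `ε` (use S_UNI and S_MULT2 with
`ε / 3`). -/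
def S_VAL2 : Prop := ∀ ε : ℝ, 0 < ε → ∃ δ : ℝ, 0 < δ ∧ δ < 1 ∧ ∀ᶠ n : ℕ in atTop, Odd n → ∃ M : Finset ℕ,
  (n : ℝ) ^ (1 / 2 - ε) ≤ M.card ∧ M.card ≤ 8 * n ∧ ∀ m ∈ M, n ≤ m ∧ m ≤ 7 * n ∧ rough δ m ∧ rough δ (m - 2) ∧
    ∃ X : Fin 4 → ℤ, ∑ i, X i ^ 2 = n ∧ pf X = m

noncomputable def kk2 (δ β : ℝ) : ℝ := min ((1 - δ) / 4) (β / 2)

/-- length of the blocks: `2 ^ aa2` -/
noncomputable def aa2 (δ β : ℝ) (u : ℕ) : ℕ := bb δ u + 1 + ⌊kk2 δ β * u⌋₊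

/-- number of the primes which are moved in each interval: `2 ^ cc2` -/
noncomputable def cc2 (δ β : ℝ) (u : ℕ) : ℕ := aa2 δ β u - ⌊β * u⌋₊

/-- `k` is one of the first `2 ^ cc2` primes of the first part, of length `2 ^ bb`, of its block -/
def A2 (δ β : ℝ) (k : ℕ) : Prop :=
  k.Prime ∧ k % 2 ^ aa2 δ β (Nat.log 2 k) < 2 ^ bb δ (Nat.log 2 k) ∧
    ((Ico (k - k % 2 ^ aa2 δ β (Nat.log 2 k)) k).filter Nat.Prime).card < 2 ^ cc2 δ β (Nat.log 2 k)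

/-- `k` is one of the first `2 ^ cc2` primes of the second part, of length `2 ^ bb`, of its block -/
def B2 (δ β : ℝ) (k : ℕ) : Prop :=
  k.Prime ∧ 2 ^ bb δ (Nat.log 2 k) ≤ k % 2 ^ aa2 δ β (Nat.log 2 k) ∧
    k % 2 ^ aa2 δ β (Nat.log 2 k) < 2 ^ (bb δ (Nat.log 2 k) + 1) ∧
    ((Ico (k - k % 2 ^ aa2 δ β (Nat.log 2 k) + 2 ^ bb δ (Nat.log 2 k)) k).filter Nat.Prime).card <
      2 ^ cc2 δ β (Nat.log 2 k)

open Classical in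
/-- the lengths of the perturbations -/
noncomputable def HH2 (δ β : ℝ) (u₀ k : ℕ) : ℕ :=
  if u₀ ≤ Nat.log 2 k ∧ (A2 δ β k ∨ B2 δ β k) then 2 ^ (aa2 δ β (Nat.log 2 k) + 5) else 1

open Classical in
/-- the first class -/
noncomputable def CA2 (δ β : ℝ) (N : ℕ) : Finset ℕ := (range N).filter (A2 δ β)

open Classical in
/-- the second class -/
noncomputable def CB2 (δ β : ℝ) (N : ℕ) : Finset ℕ := (range N).filter (B2 δ β)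

/-- **6 WIN2** (25 min). As WIN (the blocks, cases 1 and 2 are the same with `aa2`). In the first part `[I, I + 2 ^ bb)` there
are at least `η 2 ^ bb / u ≥ 2 ^ cc2` primes (`cc2 = bb + 1 + ⌊kk2 u⌋ - ⌊β u⌋`, `kk2 ≤ β / 2`, large `u`; `⌊β u⌋ ≤ aa2` because
`β ≤ 1/4`, `δ ≥ 1/2`), so exactly `2 ^ cc2` of them satisfy `A2` (the first ones: if `P` is a finite set, `N ≤ #P`, then
`#{k ∈ P : #{j ∈ P : j < k} < N} = N`; here `P` = the primes of `[I, I + 2 ^ bb)`), and the same for `B2`. So the sums are at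
least `2 ^ cc2 / 2 ^ (aa2 + 5) = 2 ^ (- ⌊β u⌋ - 5) ≥ t ^ (- (β + e))`. -/
def S_WIN2 : Prop := ∀ δ η β e : ℝ, Hoh δ η → 1 / 2 ≤ δ → 0 < β → β ≤ 1 / 4 → 0 < e → ∀ u₀ : ℕ, ∀ᶠ t : ℕ in atTop,
  ∀ N : ℕ, t < N →
  (t : ℝ) ^ (-(β + e)) ≤
    ∑ k ∈ (CA2 δ β N).filter (fun k => k ≤ t ∧ t < k + HH2 δ β u₀ k), 1 / (HH2 δ β u₀ k : ℝ) ∧
  (t : ℝ) ^ (-(β + e)) ≤
    ∑ k ∈ (CB2 δ β N).filter (fun k => k ≤ t ∧ t < k + HH2 δ β u₀ k), 1 / (HH2 δ β u₀ k : ℝ)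

open Classical in
/-- **7 SP2** (20 min). As SP. Each block `[I, I + 2 ^ aa2)` contains at most `2 ^ cc2` numbers with `A2` (all of them are primes
in the first part with fewer than `2 ^ cc2` primes of this part before them) and at most `2 ^ cc2` with `B2`, so
`[2 ^ u, 2 ^ (u + 1))` at most `2 ^ (u - aa2) * 2 * 2 ^ cc2 = 2 ^ (u + 1 - ⌊β u⌋)` for large `u`; sum over `u ≤ log₂ X`. -/
def S_SP2 : Prop := ∀ δ β : ℝ, 1 / 2 ≤ δ → δ < 1 → 0 < β → β ≤ 1 / 4 → ∃ κ : ℝ, 0 < κ ∧ κ < 1 ∧ ∃ u₀ : ℕ,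
  (∀ k : ℕ, 1 ≤ k → (HH2 δ β u₀ k : ℝ) ≤ (k : ℝ) ^ (1 - κ)) ∧
  ∀ b : ℝ, b < β → ∀ᶠ X : ℕ in atTop,
    (((range X).filter (fun k => HH2 δ β u₀ k ≠ 1)).card : ℝ) ≤ (X : ℝ) ^ (1 - b)

end Pool.Agent.D0H23.PP
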