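import Pool.Agent.D0H35.PP.Bc
import Pool.Agent.D0H23.PP.Stm2

/-!
# Module BC2 of PP: Borel-Cantelli (adapted from `Pool.Agent.D0H35.PP.Bc`, helper35)
-/

set_option autoImplicit false

open Finset Filter MeasureTheory ProbabilityTheory

namespace Pool.Agent.D0H23.PP

open Pool.Agent.D0H35.PP (six_le term_le)

lemma log_le2 {c : ℝ} (hc : 0 < c) : ∀ᶠ x : ℝ in atTop, Real.log (8 * x + 1) ≤ x ^ c ∧
    Real.log x ≤ x ^ c := by
  have h1 : ∀ᶠ x : ℝ in atTop, Real.log x ≤ (1 / 2) * x ^ c := by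
    have := (isLittleO_log_rpow_atTop hc).bound
      (by norm_num : (0 : ℝ) < 1 / 2)
    filter_upwards [this, eventually_gt_atTop 0] with x hx hx0
    rw [Real.norm_eq_abs, Real.norm_eq_abs, abs_of_nonneg (Real.rpow_nonneg hx0.le _)] at hx
    exact (le_abs_self _).trans hx
  have h2 : ∀ᶠ x : ℝ in atTop, 2 * Real.log 9 ≤ x ^ c :=
    (tendsto_rpow_atTop hc).eventually_ge_atTop _
  filter_upwards [h1, h2, eventually_ge_atTop 1] with x hx1 hx2 hx3
  have h0 : 0 ≤ x ^ c := Real.rpow_nonneg (by linarith) _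
  constructor
  · have h4 : Real.log (8 * x + 1) ≤ Real.log (9 * x) :=
      Real.log_le_log (by linarith) (by linarith)
    rw [Real.log_mul (by norm_num) (by linarith)] at h4
    linarith
  · linarith

/-- the asymptotic inequality: `a` = exponent of the number of rounds, `b` = exponent of the gain -/
lemma asym2 {a b c d : ℝ} (ha : 0 ≤ a) (hc : 0 < c) (hb : a + c < b) (hd : 0 ≤ d) :
    ∀ᶠ x : ℝ in atTop, (x ^ a + 1) * Real.log (8 * x + 1) + x ^ (-d : ℝ) * (x ^ a + 1) +
      2 * Real.log x ≤ x ^ b := by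
  filter_upwards [six_le hb, log_le2 hc, eventually_ge_atTop 1] with x h6 hl hx1
  have hx0 : 0 < x := by linarith
  have e1 : 1 ≤ x ^ a := Real.one_le_rpow hx1 ha
  have e2 : 1 ≤ x ^ c := Real.one_le_rpow hx1 hc.le
  have e3 : x ^ (-d : ℝ) ≤ 1 := Real.rpow_le_one_of_one_le_of_nonpos hx1 (by linarith)
  have e4 : 0 ≤ x ^ (-d : ℝ) := Real.rpow_nonneg hx0.le _
  have e5 : x ^ (a + c) = x ^ a * x ^ c := Real.rpow_add hx0 _ _
  have e6 : 0 ≤ Real.log (8 * x + 1) := Real.log_nonneg (by linarith)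
  have t1 : (x ^ a + 1) * Real.log (8 * x + 1) ≤ 2 * (x ^ a * x ^ c) := by
    calc (x ^ a + 1) * Real.log (8 * x + 1) ≤ (2 * x ^ a) * x ^ c :=
          mul_le_mul (by linarith) hl.1 e6 (by linarith)
      _ = _ := by ring
  have t2 : x ^ (-d : ℝ) * (x ^ a + 1) ≤ 2 * (x ^ a * x ^ c) := by
    calc x ^ (-d : ℝ) * (x ^ a + 1) ≤ 1 * (2 * x ^ a) :=
          mul_le_mul e3 (by linarith) (by linarith) (by norm_num)
      _ = 2 * (x ^ a * 1) := by ring
      _ ≤ _ := by gcongr
  have t3 : 2 * Real.log x ≤ 2 * (x ^ a * x ^ c) := by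
    have : Real.log x ≤ x ^ a * x ^ c := by
      calc Real.log x ≤ x ^ c := hl.2
        _ = 1 * x ^ c := (one_mul _).symm
        _ ≤ _ := by gcongr
    linarith
  rw [e5] at h6
  linarith

theorem t_BC2 : S_TWO → S_BC2 := by
  intro hTWO a b e hb0 he0 ha1 hpos Ω _ μ _ Y hm hind C C' M hdisj hyp
  classical
  set A : ℕ → Set Ω := fun n => {ω | Odd n ∧
    ((hit2 (C n) (C' n) (M n) (fun k => Y k ω)).card : ℝ) < (n : ℝ) ^ (a - 2 * b - 2 * e : ℝ)} with hA
  have hcast : Tendsto (fun n : ℕ => (n : ℝ)) atTop atTop := tendsto_natCast_atTop_atTop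
  have q1 := hcast.eventually (asym2 (a := a - b - e) (b := a - b) (c := e / 2) (d := b)
    (by linarith) (by linarith) (by linarith) hb0.le)
  have q2 := hcast.eventually (asym2 (a := a - 2 * b - 2 * e) (b := a - 2 * b - e) (c := e / 2) (d := b)
    (by linarith) (by linarith) (by linarith) hb0.le)
  have q3 := hcast.eventually (six_le (a := a - b - e) (b := a) (by linarith))
  have hbound : ∀ᶠ n : ℕ in atTop, μ.real (A n) ≤ 2 * (1 / (n : ℝ) ^ 2) := by
    filter_upwards [hyp, q1, q2, q3, eventually_ge_atTop 1] with n hn p1 p2 p3 hn1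
    by_cases hodd : Odd n
    · obtain ⟨m1, m2, m3⟩ := hn hodd
      have hx : (1 : ℝ) ≤ n := by exact_mod_cast hn1
      have hx0 : (0 : ℝ) < n := by linarith
      have hm2 : ((M n).card : ℝ) ≤ 8 * (n : ℝ) := by exact_mod_cast m2
      set x : ℝ := (n : ℝ) with hxdef
      set l : ℝ := x ^ (-b : ℝ) with hl
      have hl0 : 0 ≤ l := Real.rpow_nonneg hx0.le _
      set s : ℕ := ⌈x ^ (a - b - e : ℝ)⌉₊ with hs
      set r : ℕ := ⌈x ^ (a - 2 * b - 2 * e : ℝ)⌉₊ with hr
      have hs1 : x ^ (a - b - e : ℝ) ≤ s := Nat.le_ceil _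
      have hs2 : (s : ℝ) ≤ x ^ (a - b - e : ℝ) + 1 :=
        (Nat.ceil_lt_add_one (Real.rpow_nonneg hx0.le _)).le
      have hr1 : x ^ (a - 2 * b - 2 * e : ℝ) ≤ r := Nat.le_ceil _
      have hr2 : (r : ℝ) ≤ x ^ (a - 2 * b - 2 * e : ℝ) + 1 :=
        (Nat.ceil_lt_add_one (Real.rpow_nonneg hx0.le _)).le
      have hrs : r ≤ s := Nat.ceil_le_ceil (Real.rpow_le_rpow_of_exponent_le hx (by linarith))
      have h14 : 1 ≤ x ^ (a - b - e : ℝ) := Real.one_le_rpow hx (by linarith)
      have hsM : s ≤ (M n).card := by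
        have : (s : ℝ) ≤ (M n).card := by linarith
        exact_mod_cast this
      have hT := hTWO Ω μ Y hm hind (C n) (C' n) (M n) l hl0 (hdisj n) m3 r s hrs hsM
      have hsub : A n ⊆ {ω | (hit2 (C n) (C' n) (M n) (fun k => Y k ω)).card < r} := by
        rintro ω ⟨-, hω⟩
        have : ((hit2 (C n) (C' n) (M n) (fun k => Y k ω)).card : ℝ) < r := hω.trans_le hr1
        exact_mod_cast this
      have hmono : μ.real (A n) ≤
          μ.real {ω | (hit2 (C n) (C' n) (M n) (fun k => Y k ω)).card < r} :=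
        measureReal_mono hsub
      have t1 : (((M n).card : ℝ) + 1) ^ s * Real.exp (-(l * (((M n).card : ℝ) - s))) ≤
          1 / x ^ 2 := by
        apply term_le hx (Nat.cast_nonneg _) hm2 hs2
        have e1 : l * x ^ (a : ℝ) = x ^ (a - b : ℝ) := by
          rw [hl, ← Real.rpow_add hx0]
          congr 1
          ring
        have e2 : l * x ^ (a : ℝ) ≤ l * (M n).card := mul_le_mul_of_nonneg_left m1 hl0
        have e3 : l * s ≤ l * (x ^ (a - b - e : ℝ) + 1) := mul_le_mul_of_nonneg_left hs2 hl0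
        rw [mul_sub]
        linarith
      have t2 : (((M n).card : ℝ) + 1) ^ r * Real.exp (-(l * ((s : ℝ) - r))) ≤ 1 / x ^ 2 := by
        apply term_le hx (Nat.cast_nonneg _) hm2 hr2
        have e1 : l * x ^ (a - b - e : ℝ) = x ^ (a - 2 * b - e : ℝ) := by
          rw [hl, ← Real.rpow_add hx0]
          congr 1
          ring
        have e2 : l * x ^ (a - b - e : ℝ) ≤ l * s := mul_le_mul_of_nonneg_left hs1 hl0
        have e3 : l * r ≤ l * (x ^ (a - 2 * b - 2 * e : ℝ) + 1) := mul_le_mul_of_nonneg_left hr2 hl0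
        rw [mul_sub]
        linarith
      linarith
    · have : A n = ∅ := by
        rw [hA]
        ext ω
        simp [hodd]
      rw [this, measureReal_empty]
      positivity
  have hsum : Summable (fun n => μ.real (A n)) := by
    have hs2 : Summable (fun n : ℕ => 2 * (1 / (n : ℝ) ^ 2)) :=
      (Real.summable_one_div_nat_pow.mpr (by norm_num)).mul_left 2
    refine Summable.of_norm_bounded_eventually_nat hs2 ?_
    filter_upwards [hbound] with n hn
    rwa [Real.norm_eq_abs, abs_of_nonneg measureReal_nonneg]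
  have hfin : ∑' n, μ (A n) ≠ ⊤ := by
    have h1 := hsum.tsum_ofReal_ne_top
    have h2 : ∀ n, ENNReal.ofReal (μ.real (A n)) = μ (A n) := fun n => ofReal_measureReal
    simpa only [h2] using h1
  filter_upwards [ae_eventually_notMem hfin] with ω hω
  filter_upwards [hω] with n hn hodd
  by_contra hcon
  exact hn ⟨hodd, not_le.mp hcon⟩

end Pool.Agent.D0H23.PP
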