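import Pool.Agent.D0H23.PP.Stm

set_option autoImplicit false

/-!
# Project PP: assembly
-/

namespace Pool.Agent.D0H23.PP

open Finset Filter MeasureTheory ProbabilityTheory

/-- the quadruples `(x, y, z, w)` with `n = x² + y² + z² + w²` for which `p = x² + 3y² + 5z² + 7w²` and `p - 2` both
belong to `P` -/
def Reps (P : Set ℕ) (n : ℕ) : Set (ℤ × ℤ × ℤ × ℤ) :=
  {v | (n : ℤ) = v.1 ^ 2 + v.2.1 ^ 2 + v.2.2.1 ^ 2 + v.2.2.2 ^ 2 ∧
    ∃ p ∈ P, ∃ q ∈ P, (p : ℤ) = v.1 ^ 2 + 3 * v.2.1 ^ 2 + 5 * v.2.2.1 ^ 2 + 7 * v.2.2.2 ^ 2 ∧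
      (p : ℤ) - 2 = q}

theorem reps_finite (P : Set ℕ) (n : ℕ) : (Reps P n).Finite := by
  have h1 : (Reps P n) ⊆ ((Icc (-(n : ℤ)) n ×ˢ (Icc (-(n : ℤ)) n ×ˢ (Icc (-(n : ℤ)) n ×ˢ Icc (-(n : ℤ)) n)) :
      Finset (ℤ × ℤ × ℤ × ℤ)) : Set (ℤ × ℤ × ℤ × ℤ)) := by
    rintro ⟨x, y, z, w⟩ ⟨h, -⟩
    simp only at h
    simp only [Finset.coe_product, Set.mem_prod, Finset.mem_coe, Finset.mem_Icc]
    have key : ∀ a : ℤ, a ^ 2 ≤ n → -(n : ℤ) ≤ a ∧ a ≤ n := by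
      intro a ha
      have h0 : (0 : ℤ) ≤ n := Int.natCast_nonneg n
      constructor
      · nlinarith [sq_nonneg (a + 1)]
      · nlinarith [sq_nonneg (a - 1)]
    refine ⟨key x ?_, key y ?_, key z ?_, key w ?_⟩ <;>
      nlinarith [sq_nonneg x, sq_nonneg y, sq_nonneg z, sq_nonneg w]
  exact (Finset.finite_toSet _).subset h1

theorem CA_CB (δ : ℝ) (N : ℕ) : Disjoint (CA δ N) (CB δ N) := by
  classical
  rw [Finset.disjoint_left]
  intro k h1 h2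
  rw [CA, mem_filter] at h1
  rw [CB, mem_filter] at h2
  have h3 := h1.2.2
  have h4 := h2.2.2.1
  omega

theorem HH_pos (δ : ℝ) (u₀ k : ℕ) : 1 ≤ HH δ u₀ k := by
  classical
  rw [HH]
  split_ifs
  · exact Nat.one_le_two_pow
  · exact le_rfl

/-- from the windows to the probabilities -/
theorem low_sum {Ω : Type} [MeasurableSpace Ω] (μ : Measure Ω) (Y : ℕ → Ω → ℕ) (H : ℕ → ℕ) (δ : ℝ)
    (hM : Model μ Y H δ) (C : Finset ℕ) (t : ℕ) (ht : rough δ t) :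
    ∑ k ∈ C.filter (fun k => k ≤ t ∧ t < k + H k), 1 / (H k : ℝ) ≤ ∑ k ∈ C, μ.real {ω | Y k ω = t} := by
  refine (sum_le_sum fun k hk => ?_).trans
    (sum_le_sum_of_subset_of_nonneg (filter_subset _ _) fun k _ _ => measureReal_nonneg)
  have h := (mem_filter.mp hk).2
  exact hM.low k t h.1 h.2 ht

theorem law (hBC : S_BC) (hVAL : S_VAL) (hWIN : S_WIN) (δh η : ℝ) (hH : Hoh δh η) (u₀ : ℕ) :
    ∃ δ : ℝ, 0 < δ ∧ δ < 1 ∧ ∀ (Ω : Type) [MeasurableSpace Ω] (μ : Measure Ω) [IsProbabilityMeasure μ]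
      (Y : ℕ → Ω → ℕ), Model μ Y (HH δh u₀) δ → ∀ᵐ ω ∂μ, ∀ᶠ n : ℕ in atTop, Odd n →
        (n : ℝ) ^ (1 / 16 : ℝ) ≤ (Reps {j | ∃ q : ℕ, q.Prime ∧ Y q ω = j} n).ncard := by
  classical
  obtain ⟨δ, hδ0, hδ1, hV⟩ := hVAL
  refine ⟨δ, hδ0, hδ1, ?_⟩
  intro Ω _ μ _ Y hM
  set G : ℕ → Finset ℕ → Prop := fun n M =>
    (n : ℝ) ^ (1 / 3 : ℝ) ≤ M.card ∧ M.card ≤ 8 * n ∧ ∀ m ∈ M, n ≤ m ∧ m ≤ 7 * n ∧ rough δ m ∧
      rough δ (m - 2) ∧ ∃ X : Fin 4 → ℤ, ∑ i, X i ^ 2 = n ∧ pf X = m with hG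
  set M : ℕ → Finset ℕ := fun n => if h : ∃ M, G n M then h.choose else ∅ with hMdef
  have hMG : ∀ᶠ n : ℕ in atTop, Odd n → G n (M n) := by
    filter_upwards [hV] with n hn hodd
    have h := hn hodd
    rw [hMdef]
    simp only
    rw [dif_pos h]
    exact h.choose_spec
  have hW := hWIN δh η hH u₀
  rw [eventually_atTop] at hW
  obtain ⟨t₀, hW⟩ := hW
  have hmain := hBC Ω μ Y hM.meas hM.indep (fun n => CA δh (7 * n + 1)) (fun n => CB δh (7 * n + 1)) M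
    (fun n => CA_CB _ _) (by
      filter_upwards [hMG, eventually_ge_atTop (t₀ + 7)] with n hn hn0 hodd
      obtain ⟨h1, h2, h3⟩ := hn hodd
      refine ⟨h1, h2, ?_⟩
      intro t ht
      obtain ⟨h4, h5, h6, h7, -⟩ := h3 t ht
      have hn1 : (1 : ℝ) ≤ n := by exact_mod_cast (by omega : 1 ≤ n)
      have key : ∀ m : ℕ, t₀ ≤ m → 1 ≤ m → m ≤ 7 * n →
          (n : ℝ) ^ (-(1 / 16) : ℝ) ≤ (m : ℝ) ^ (-(1 / 32) : ℝ) := by
        intro m _ hm1 hm7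
        have hm0 : (0 : ℝ) < m := by exact_mod_cast (by omega : 0 < m)
        have hmn : (m : ℝ) ≤ (n : ℝ) ^ 2 := by
          have : m ≤ n ^ 2 := by nlinarith
          exact_mod_cast this
        calc (n : ℝ) ^ (-(1 / 16) : ℝ) = ((n : ℝ) ^ 2) ^ (-(1 / 32) : ℝ) := by
              rw [← Real.rpow_natCast, ← Real.rpow_mul (by linarith)]
              norm_num
          _ ≤ (m : ℝ) ^ (-(1 / 32) : ℝ) :=
              Real.rpow_le_rpow_of_nonpos hm0 hmn (by norm_num)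
      refine ⟨by omega, ?_, ?_⟩
      · refine (key t (by omega) (by omega) h5).trans ?_
        refine ((hW t (by omega) (7 * n + 1) (by omega)).1).trans ?_
        exact low_sum μ Y _ δ hM _ t h6
      · refine (key (t - 2) (by omega) (by omega) (by omega)).trans ?_
        refine ((hW (t - 2) (by omega) (7 * n + 1) (by omega)).2).trans ?_
        exact low_sum μ Y _ δ hM _ (t - 2) h7)
  filter_upwards [hmain] with ω hω
  filter_upwards [hω, hMG, eventually_ge_atTop 7] with n hn hn2 hn7 hodd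
  refine (hn hodd).trans ?_
  obtain ⟨-, -, h3⟩ := hn2 hodd
  set S := hit2 (CA δh (7 * n + 1)) (CB δh (7 * n + 1)) (M n) (fun k => Y k ω) with hS
  have hex : ∀ t : ℕ, t ∈ S → ∃ X : Fin 4 → ℤ, ∑ i, X i ^ 2 = n ∧ pf X = t := by
    intro t ht
    rw [hS, hit2, mem_filter] at ht
    exact (h3 t ht.1).2.2.2.2
  choose! g hg using hex
  have h4 : S.card ≤ (Reps {j | ∃ q : ℕ, q.Prime ∧ Y q ω = j} n).ncard := by
    rw [← Set.ncard_coe_finset S]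
    refine Set.ncard_le_ncard_of_injOn (fun t => (g t 0, g t 1, g t 2, g t 3)) ?_ ?_ (reps_finite _ _)
    · intro t ht
      rw [Finset.mem_coe] at ht
      have h5 := hg t ht
      have h6 := ht
      rw [hS, hit2, mem_filter] at h6
      obtain ⟨h7, ⟨k, hk, hkt⟩, k', hk', hkt'⟩ := h6
      have h8 := h3 t h7
      rw [CA, mem_filter] at hk
      rw [CB, mem_filter] at hk'
      have h9 := h5.1
      rw [Fin.sum_univ_four] at h9
      have h10 := h5.2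
      rw [pf] at h10
      refine ⟨?_, t, ⟨k, hk.2.1, hkt⟩, t - 2, ⟨k', hk'.2.1, hkt'⟩, ?_, ?_⟩
      · simp only
        linarith
      · simp only
        linarith
      · have : 2 ≤ t := by omega
        push_cast [this]
        ring
    · intro t ht t' ht' h
      rw [Finset.mem_coe] at ht ht'
      simp only [Prod.mk.injEq] at h
      have h5 := (hg t ht).2
      have h6 := (hg t' ht').2
      rw [pf] at h5 h6
      rw [h.1, h.2.1, h.2.2.1, h.2.2.2, h6] at h5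
      exact_mod_cast h5.symm
  exact_mod_cast h4

/-- the final statement -/
theorem fin (hBC : S_BC) (hVAL : S_VAL) (hWIN : S_WIN) (hSP : S_SP) (hEX : S_EX) (hH : ∃ δ η : ℝ, Hoh δ η) :
    ∃ κ δ : ℝ, 0 < κ ∧ 0 < δ ∧ ∃ H : ℕ → ℕ, (∀ k, 1 ≤ H k) ∧
      (∀ k : ℕ, 1 ≤ k → (H k : ℝ) ≤ (k : ℝ) ^ (1 - κ)) ∧
      (∀ᶠ X : ℕ in atTop, ({k : ℕ | k < X ∧ H k ≠ 1}.ncard : ℝ) ≤ (X : ℝ) ^ (1 - κ)) ∧
      (∀ (Ω : Type) [MeasurableSpace Ω] (μ : Measure Ω) [IsProbabilityMeasure μ] (Y : ℕ → Ω → ℕ),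
        Model μ Y H δ → ∀ᵐ ω ∂μ, ∀ᶠ n : ℕ in atTop, Odd n →
          (n : ℝ) ^ κ ≤ (Reps {j | ∃ q : ℕ, q.Prime ∧ Y q ω = j} n).ncard) ∧
      ∃ μ : Measure (ℕ → ℕ), IsProbabilityMeasure μ ∧ Model μ (fun k ω => ω k) H δ ∧
        ∀ᵐ ω ∂μ, ∀ q : ℕ, q.Prime → rough δ (ω q) := by
  classical
  obtain ⟨δh, η, hH⟩ := hH
  obtain ⟨κ, hκ0, hκ1, u₀, h1, h2⟩ := hSP δh hH.1 hH.2.1
  obtain ⟨δ, hδ0, hδ1, h3⟩ := law hBC hVAL hWIN δh η hH u₀
  refine ⟨κ, δ, hκ0, hδ0, HH δh u₀, HH_pos δh u₀, h1, ?_, ?_, hEX (HH δh u₀) δ hδ0 hδ1 (HH_pos δh u₀)⟩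
  · filter_upwards [h2] with X hX
    refine le_trans (le_of_eq ?_) hX
    rw [← Set.ncard_coe_finset]
    congr 2
    ext k
    simp
  · intro Ω _ μ _ Y hM
    filter_upwards [h3 Ω μ Y hM] with ω hω
    filter_upwards [hω, eventually_ge_atTop 1] with n hn hn1 hodd
    refine le_trans ?_ (hn hodd)
    exact Real.rpow_le_rpow_of_exponent_le (by exact_mod_cast hn1) hκ1

end Pool.Agent.D0H23.PP
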