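import Pool.Agent.D0H23.PP.Stm2
import Pool.Agent.D0H23.PP.Fin

set_option autoImplicit false

/-!
# Project PP, quantitative form: assembly
-/

namespace Pool.Agent.D0H23.PP

open Finset Filter MeasureTheory ProbabilityTheory

theorem hoh_mono {δ δ' η : ℝ} (h : Hoh δ η) (h1 : δ ≤ δ') (h2 : δ' < 1) : Hoh δ' η := by
  obtain ⟨h3, h4, h5, u₀, h6⟩ := h
  refine ⟨by linarith, h2, h5, u₀, ?_⟩
  intro u H s hu hH hH2 hs
  refine h6 u H s hu (le_trans ?_ hH) hH2 hs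
  apply Real.rpow_le_rpow_of_exponent_le (by norm_num)
  exact mul_le_mul_of_nonneg_right h1 (Nat.cast_nonneg _)

theorem CA2_CB2 (δ β : ℝ) (N : ℕ) : Disjoint (CA2 δ β N) (CB2 δ β N) := by
  classical
  rw [Finset.disjoint_left]
  intro k h1 h2
  rw [CA2, mem_filter] at h1
  rw [CB2, mem_filter] at h2
  have h3 := h1.2.2.1
  have h4 := h2.2.2.1
  omega

theorem HH2_pos (δ β : ℝ) (u₀ k : ℕ) : 1 ≤ HH2 δ β u₀ k := by
  classical
  rw [HH2]
  split_ifs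
  · exact Nat.one_le_two_pow
  · exact le_rfl

theorem HH2_prime (δ β : ℝ) (u₀ k : ℕ) (h : HH2 δ β u₀ k ≠ 1) : k.Prime := by
  classical
  rw [HH2] at h
  split_ifs at h with h1
  · rcases h1.2 with h2 | h2
    · exact h2.1
    · exact h2.1
  · exact absurd rfl h

theorem law2 (hBC : S_BC2) (hVAL : S_VAL2) (hWIN : S_WIN2) (δh η : ℝ) (hH : Hoh δh η) (hδ : 1 / 2 ≤ δh)
    (β e : ℝ) (hβ : 0 < β) (he : 0 < e) (hβe : 2 * β + 16 * e < 1 / 2) (u₀ : ℕ) :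
    ∃ δ : ℝ, 0 < δ ∧ δ < 1 ∧ ∀ (Ω : Type) [MeasurableSpace Ω] (μ : Measure Ω) [IsProbabilityMeasure μ]
      (Y : ℕ → Ω → ℕ), Model μ Y (HH2 δh (β + e) u₀) δ → ∀ᵐ ω ∂μ, ∀ᶠ n : ℕ in atTop, Odd n →
        (n : ℝ) ^ (1 / 2 - 2 * β - 16 * e) ≤ (Reps {j | ∃ q : ℕ, q.Prime ∧ Y q ω = j} n).ncard := by
  classical
  obtain ⟨δ, hδ0, hδ1, hV⟩ := hVAL e he
  refine ⟨δ, hδ0, hδ1, ?_⟩
  intro Ω _ μ _ Y hM
  set G : ℕ → Finset ℕ → Prop := fun n M =>
    (n : ℝ) ^ (1 / 2 - e) ≤ M.card ∧ M.card ≤ 8 * n ∧ ∀ m ∈ M, n ≤ m ∧ m ≤ 7 * n ∧ rough δ m ∧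
      rough δ (m - 2) ∧ ∃ X : Fin 4 → ℤ, ∑ i, X i ^ 2 = n ∧ pf X = m with hG
  set M : ℕ → Finset ℕ := fun n => if h : ∃ M, G n M then h.choose else ∅ with hMdef
  have hMG : ∀ᶠ n : ℕ in atTop, Odd n → G n (M n) := by
    filter_upwards [hV] with n hn hodd
    have h := hn hodd
    rw [hMdef]
    simp only
    rw [dif_pos h]
    exact h.choose_spec
  have hW := hWIN δh η (β + e) e hH hδ (by linarith) (by linarith) he u₀
  rw [eventually_atTop] at hW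
  obtain ⟨t₀, hW⟩ := hW
  have h7 : ∀ᶠ n : ℕ in atTop, (7 : ℝ) ≤ (n : ℝ) ^ e :=
    ((tendsto_rpow_atTop he).comp tendsto_natCast_atTop_atTop).eventually_ge_atTop 7
  have hmain := hBC (1 / 2 - e) (β + 3 * e) e (by linarith) he (by linarith) (by linarith) Ω μ Y hM.meas
    hM.indep (fun n => CA2 δh (β + e) (7 * n + 1)) (fun n => CB2 δh (β + e) (7 * n + 1)) M
    (fun n => CA2_CB2 _ _ _) (by
      filter_upwards [hMG, eventually_ge_atTop (t₀ + 7), h7] with n hn hn0 hn7 hodd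
      obtain ⟨h1, h2, h3⟩ := hn hodd
      refine ⟨h1, h2, ?_⟩
      intro t ht
      obtain ⟨h4, h5, h6, h7, -⟩ := h3 t ht
      have hn1 : (1 : ℝ) ≤ n := by exact_mod_cast (by omega : 1 ≤ n)
      have key : ∀ m : ℕ, 1 ≤ m → m ≤ 7 * n →
          (n : ℝ) ^ (-(β + 3 * e)) ≤ (m : ℝ) ^ (-((β + e) + e)) := by
        intro m hm1 hm7
        have hm0 : (1 : ℝ) ≤ m := by exact_mod_cast hm1
        have hmn : (m : ℝ) ≤ 7 * n := by exact_mod_cast hm7
        rw [Real.rpow_neg (by linarith), Real.rpow_neg (by linarith)]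
        apply inv_anti₀ (Real.rpow_pos_of_pos (by linarith) _)
        calc (m : ℝ) ^ ((β + e) + e) ≤ (7 * n : ℝ) ^ ((β + e) + e) :=
              Real.rpow_le_rpow (by linarith) hmn (by linarith)
          _ = (7 : ℝ) ^ ((β + e) + e) * (n : ℝ) ^ ((β + e) + e) :=
              Real.mul_rpow (by norm_num) (by linarith)
          _ ≤ 7 * (n : ℝ) ^ ((β + e) + e) := by
              apply mul_le_mul_of_nonneg_right _ (Real.rpow_nonneg (by linarith) _)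
              calc (7 : ℝ) ^ ((β + e) + e) ≤ (7 : ℝ) ^ (1 : ℝ) :=
                    Real.rpow_le_rpow_of_exponent_le (by norm_num) (by linarith)
                _ = 7 := Real.rpow_one _
          _ ≤ (n : ℝ) ^ e * (n : ℝ) ^ ((β + e) + e) :=
              mul_le_mul_of_nonneg_right hn7 (Real.rpow_nonneg (by linarith) _)
          _ = (n : ℝ) ^ (β + 3 * e) := by
              rw [← Real.rpow_add (by linarith)]
              congr 1
              ring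
      refine ⟨by omega, ?_, ?_⟩
      · refine (key t (by omega) h5).trans ?_
        refine ((hW t (by omega) (7 * n + 1) (by omega)).1).trans ?_
        exact low_sum μ Y _ δ hM _ t h6
      · refine (key (t - 2) (by omega) (by omega)).trans ?_
        refine ((hW (t - 2) (by omega) (7 * n + 1) (by omega)).2).trans ?_
        exact low_sum μ Y _ δ hM _ (t - 2) h7)
  filter_upwards [hmain] with ω hω
  filter_upwards [hω, hMG, eventually_ge_atTop 7] with n hn hn2 hn7 hodd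
  have hn1 : (1 : ℝ) ≤ n := by exact_mod_cast (by omega : 1 ≤ n)
  refine (Real.rpow_le_rpow_of_exponent_le hn1 (by linarith :
    1 / 2 - 2 * β - 16 * e ≤ 1 / 2 - e - 2 * (β + 3 * e) - 2 * e)).trans ?_
  refine (hn hodd).trans ?_
  obtain ⟨-, -, h3⟩ := hn2 hodd
  set S := hit2 (CA2 δh (β + e) (7 * n + 1)) (CB2 δh (β + e) (7 * n + 1)) (M n) (fun k => Y k ω) with hS
  have hex : ∀ t : ℕ, t ∈ S → ∃ X : Fin 4 → ℤ, ∑ i, X i ^ 2 = n ∧ pf X = t := by
    intro t ht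
    rw [hS, hit2, mem_filter] at ht
    exact (h3 t ht.1).2.2.2.2
  choose! g hg using hex
  have h4 : S.card ≤ (Reps {j | ∃ q : ℕ, q.Prime ∧ Y q ω = j} n).ncard := by
    rw [← Set.ncard_coe_finset S]
    refine Set.ncard_le_ncard_of_injOn (fun t => (g t 0, g t 1, g t 2, g t 3)) ?_ ?_ (reps_finite _ _)
    · intro t ht
      rw [Finset.mem_coe] at ht
      have h5 := hg t ht
      have h6 := ht
      rw [hS, hit2, mem_filter] at h6
      obtain ⟨h7, ⟨k, hk, hkt⟩, k', hk', hkt'⟩ := h6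
      have h8 := h3 t h7
      rw [CA2, mem_filter] at hk
      rw [CB2, mem_filter] at hk'
      have h9 := h5.1
      rw [Fin.sum_univ_four] at h9
      have h10 := h5.2
      rw [pf] at h10
      refine ⟨?_, t, ⟨k, hk.2.1, hkt⟩, t - 2, ⟨k', hk'.2.1, hkt'⟩, ?_, ?_⟩
      · simp only
        linarith
      · simp only
        linarith
      · have : 2 ≤ t := by omega
        push_cast [this]
        ring
    · intro t ht t' ht' h
      rw [Finset.mem_coe] at ht ht'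
      simp only [Prod.mk.injEq] at h
      have h5 := (hg t ht).2
      have h6 := (hg t' ht').2
      rw [pf] at h5 h6
      rw [h.1, h.2.1, h.2.2.1, h.2.2.2, h6] at h5
      exact_mod_cast h5.symm
  exact_mod_cast h4

/-- the final statement -/
theorem fin2 (hBC : S_BC2) (hVAL : S_VAL2) (hWIN : S_WIN2) (hSP : S_SP2) (hEX : S_EX)
    (hH : ∃ δ η : ℝ, Hoh δ η) (β ε : ℝ) (hβ : 0 < β) (hε : 0 < ε) (hβε : 2 * β + ε < 1 / 2) :
    ∃ κ δ : ℝ, 0 < κ ∧ 0 < δ ∧ ∃ H : ℕ → ℕ, (∀ k, 1 ≤ H k) ∧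
      (∀ k : ℕ, 1 ≤ k → (H k : ℝ) ≤ (k : ℝ) ^ (1 - κ)) ∧ (∀ k, H k ≠ 1 → k.Prime) ∧
      (∀ᶠ X : ℕ in atTop, ({k : ℕ | k < X ∧ H k ≠ 1}.ncard : ℝ) ≤ (X : ℝ) ^ (1 - β)) ∧
      (∀ (Ω : Type) [MeasurableSpace Ω] (μ : Measure Ω) [IsProbabilityMeasure μ] (Y : ℕ → Ω → ℕ),
        Model μ Y H δ → ∀ᵐ ω ∂μ, ∀ᶠ n : ℕ in atTop, Odd n →
          (n : ℝ) ^ (1 / 2 - 2 * β - ε) ≤ (Reps {j | ∃ q : ℕ, q.Prime ∧ Y q ω = j} n).ncard) ∧
      ∃ μ : Measure (ℕ → ℕ), IsProbabilityMeasure μ ∧ Model μ (fun k ω => ω k) H δ ∧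
        ∀ᵐ ω ∂μ, ∀ q : ℕ, q.Prime → rough δ (ω q) := by
  classical
  obtain ⟨δh, η, hH⟩ := hH
  have hH' : Hoh (max δh (1 / 2)) η := hoh_mono hH (le_max_left _ _) (max_lt hH.2.1 (by norm_num))
  obtain ⟨κ, hκ0, hκ1, u₀, h1, h2⟩ := hSP (max δh (1 / 2)) (β + ε / 16) (le_max_right _ _) hH'.2.1
    (by linarith) (by linarith)
  obtain ⟨δ, hδ0, hδ1, h3⟩ := law2 hBC hVAL hWIN _ η hH' (le_max_right _ _) β (ε / 16) hβ (by linarith)
    (by linarith) u₀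
  refine ⟨κ, δ, hκ0, hδ0, HH2 (max δh (1 / 2)) (β + ε / 16) u₀, HH2_pos _ _ u₀, h1, HH2_prime _ _ u₀, ?_, ?_,
    hEX _ δ hδ0 hδ1 (HH2_pos _ _ u₀)⟩
  · filter_upwards [h2 β (by linarith)] with X hX
    refine le_trans (le_of_eq ?_) hX
    rw [← Set.ncard_coe_finset]
    congr 2
    ext k
    simp
  · intro Ω _ μ _ Y hM
    have h4 := h3 Ω μ Y hM
    have h5 : 1 / 2 - 2 * β - 16 * (ε / 16) = 1 / 2 - 2 * β - ε := by ring
    rw [h5] at h4
    exact h4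

end Pool.Agent.D0H23.PP
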