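import Pool.Agent.D0H23.PP.Stm3
import Pool.Agent.D0H23.PP.Fin2

set_option autoImplicit false

/-!
# Project PP, version 4: assembly
-/

namespace Pool.Agent.D0H23.PP

open Finset Filter MeasureTheory ProbabilityTheory

theorem law3 (hBC : S_BC3) (hVAL : S_VAL3) (hWIN : S_WIN2) (δh η : ℝ) (hH : Hoh δh η) (hδ : 1 / 2 ≤ δh)
    (β e : ℝ) (hβ : 0 < β) (he : 0 < e) (hβe : 2 * β + 16 * e < 1 / 2) (u₀ : ℕ) :
    ∃ δ : ℝ, 0 < δ ∧ δ < 1 ∧ ∀ (Ω : Type) [MeasurableSpace Ω] (μ : Measure Ω) [IsProbabilityMeasure μ]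
      (Y : ℕ → Ω → ℕ), Model μ Y (HH2 δh (β + e) u₀) δ → ∀ᵐ ω ∂μ, ∀ᶠ n : ℕ in atTop, Odd n →
        (n : ℝ) ^ (1 - 2 * β - 16 * e) ≤ (Reps {j | ∃ q : ℕ, q.Prime ∧ Y q ω = j} n).ncard := by
  classical
  obtain ⟨δ, hδ0, hδ1, hV⟩ := hVAL e he (by linarith)
  refine ⟨δ, hδ0, hδ1, ?_⟩
  intro Ω _ μ _ Y hM
  set G : ℕ → Finset ℕ × ℕ → Prop := fun n p =>
    (n : ℝ) ^ (1 / 2 - e) ≤ p.1.card ∧ p.1.card ≤ 8 * n ∧ (n : ℝ) ^ (1 - e) ≤ (p.1.card : ℝ) * p.2 ∧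
      ∀ m ∈ p.1, n ≤ m ∧ m ≤ 7 * n ∧ rough δ m ∧ rough δ (m - 2) ∧
        ∃ F : Finset (Fin 4 → ℤ), p.2 ≤ F.card ∧ ∀ X ∈ F, ∑ i, X i ^ 2 = n ∧ pf X = m with hG
  set PM : ℕ → Finset ℕ × ℕ := fun n => if h : ∃ p, G n p then h.choose else (∅, 0) with hMdef
  have hMG : ∀ᶠ n : ℕ in atTop, Odd n → G n (PM n) := by
    filter_upwards [hV] with n hn hodd
    obtain ⟨M, m₀, hMm⟩ := hn hodd
    have h : ∃ p, G n p := ⟨(M, m₀), hMm⟩
    rw [hMdef]
    simp only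
    rw [dif_pos h]
    exact h.choose_spec
  have hW := hWIN δh η (β + e) e hH hδ (by linarith) (by linarith) he u₀
  rw [eventually_atTop] at hW
  obtain ⟨t₀, hW⟩ := hW
  have h7 : ∀ᶠ n : ℕ in atTop, (7 : ℝ) ≤ (n : ℝ) ^ e :=
    ((tendsto_rpow_atTop he).comp tendsto_natCast_atTop_atTop).eventually_ge_atTop 7
  have hmain := hBC (1 / 2 - e) (β + 3 * e) e (by linarith) he (by linarith) Ω μ Y hM.meas
    hM.indep (fun n => CA2 δh (β + e) (7 * n + 1)) (fun n => CB2 δh (β + e) (7 * n + 1)) (fun n => (PM n).1)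
    (fun n => CA2_CB2 _ _ _) (by
      filter_upwards [hMG, eventually_ge_atTop (t₀ + 7), h7] with n hn hn0 hn7 hodd
      obtain ⟨h1, h2, -, h3⟩ := hn hodd
      refine ⟨h1, h2, ?_⟩
      intro t ht
      obtain ⟨h4, h5, h6, h7, -⟩ := h3 t ht
      have hn1 : (1 : ℝ) ≤ n := by exact_mod_cast (by omega : 1 ≤ n)
      have key : ∀ m : ℕ, 1 ≤ m → m ≤ 7 * n →
          (n : ℝ) ^ (-(β + 3 * e)) ≤ (m : ℝ) ^ (-((β + e) + e)) := by
        intro m hm1 hm7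
        have hm0 : (1 : ℝ) ≤ m := by exact_mod_cast hm1
        have hmn : (m : ℝ) ≤ 7 * n := by exact_mod_cast hm7
        rw [Real.rpow_neg (by linarith), Real.rpow_neg (by linarith)]
        apply inv_anti₀ (Real.rpow_pos_of_pos (by linarith) _)
        calc (m : ℝ) ^ ((β + e) + e) ≤ (7 * n : ℝ) ^ ((β + e) + e) :=
              Real.rpow_le_rpow (by linarith) hmn (by linarith)
          _ = (7 : ℝ) ^ ((β + e) + e) * (n : ℝ) ^ ((β + e) + e) :=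
              Real.mul_rpow (by norm_num) (by linarith)
          _ ≤ 7 * (n : ℝ) ^ ((β + e) + e) := by
              apply mul_le_mul_of_nonneg_right _ (Real.rpow_nonneg (by linarith) _)
              calc (7 : ℝ) ^ ((β + e) + e) ≤ (7 : ℝ) ^ (1 : ℝ) :=
                    Real.rpow_le_rpow_of_exponent_le (by norm_num) (by linarith)
                _ = 7 := Real.rpow_one _
          _ ≤ (n : ℝ) ^ e * (n : ℝ) ^ ((β + e) + e) :=
              mul_le_mul_of_nonneg_right hn7 (Real.rpow_nonneg (by linarith) _)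
          _ = (n : ℝ) ^ (β + 3 * e) := by
              rw [← Real.rpow_add (by linarith)]
              congr 1
              ring
      refine ⟨by omega, ?_, ?_⟩
      · refine (key t (by omega) h5).trans ?_
        refine ((hW t (by omega) (7 * n + 1) (by omega)).1).trans ?_
        exact low_sum μ Y _ δ hM _ t h6
      · refine (key (t - 2) (by omega) (by omega)).trans ?_
        refine ((hW (t - 2) (by omega) (7 * n + 1) (by omega)).2).trans ?_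
        exact low_sum μ Y _ δ hM _ (t - 2) h7)
  filter_upwards [hmain] with ω hω
  filter_upwards [hω, hMG, eventually_ge_atTop 7] with n hn hn2 hn7 hodd
  have hn1 : (1 : ℝ) ≤ n := by exact_mod_cast (by omega : 1 ≤ n)
  have hn0 : (0 : ℝ) < n := by linarith
  obtain ⟨-, -, h2, h3⟩ := hn2 hodd
  have hn' := hn hodd
  set S := hit2 (CA2 δh (β + e) (7 * n + 1)) (CB2 δh (β + e) (7 * n + 1)) (PM n).1 (fun k => Y k ω) with hS
  have hex : ∀ t : ℕ, t ∈ S → ∃ F : Finset (Fin 4 → ℤ), (PM n).2 ≤ F.card ∧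
      ∀ X ∈ F, ∑ i, X i ^ 2 = n ∧ pf X = t := by
    intro t ht
    rw [hS, hit2, mem_filter] at ht
    exact (h3 t ht.1).2.2.2.2
  choose! F hF1 hF2 using hex
  have h4 : (S.sigma F).card ≤ (Reps {j | ∃ q : ℕ, q.Prime ∧ Y q ω = j} n).ncard := by
    rw [← Set.ncard_coe_finset (S.sigma F)]
    refine Set.ncard_le_ncard_of_injOn (fun p => (p.2 0, p.2 1, p.2 2, p.2 3)) ?_ ?_ (reps_finite _ _)
    · rintro ⟨t, X⟩ ht
      rw [Finset.mem_coe, Finset.mem_sigma] at ht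
      simp only at ht
      have h5 := hF2 t ht.1 X ht.2
      have h6 := ht.1
      rw [hS, hit2, mem_filter] at h6
      obtain ⟨h7, ⟨k, hk, hkt⟩, k', hk', hkt'⟩ := h6
      have h8 := h3 t h7
      rw [CA2, mem_filter] at hk
      rw [CB2, mem_filter] at hk'
      have h9 := h5.1
      rw [Fin.sum_univ_four] at h9
      have h10 := h5.2
      rw [pf] at h10
      refine ⟨?_, t, ⟨k, hk.2.1, hkt⟩, t - 2, ⟨k', hk'.2.1, hkt'⟩, ?_, ?_⟩
      · simp only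
        linarith
      · simp only
        linarith
      · have : 2 ≤ t := by omega
        push_cast [this]
        ring
    · rintro ⟨t, X⟩ ht ⟨t', X'⟩ ht' h
      rw [Finset.mem_coe, Finset.mem_sigma] at ht ht'
      simp only [Prod.mk.injEq] at h
      have h5 := (hF2 t ht.1 X ht.2).2
      have h6 := (hF2 t' ht'.1 X' ht'.2).2
      have h7 : X = X' := by
        funext i
        fin_cases i
        · exact h.1
        · exact h.2.1
        · exact h.2.2.1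
        · exact h.2.2.2
      subst h7
      have h8 : t = t' := by
        rw [h6] at h5
        exact_mod_cast h5.symm
      subst h8
      rfl
  have h5 : S.card * (PM n).2 ≤ (S.sigma F).card := by
    rw [card_sigma, ← smul_eq_mul]
    exact card_nsmul_le_sum _ _ _ hF1
  have h6 : ((S.card : ℝ)) * (PM n).2 ≤ ((Reps {j | ∃ q : ℕ, q.Prime ∧ Y q ω = j} n).ncard : ℝ) := by
    exact_mod_cast h5.trans h4
  refine le_trans ?_ h6
  have h7 : 0 < (n : ℝ) ^ (-(2 * (β + 3 * e)) - 2 * e) := Real.rpow_pos_of_pos hn0 _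
  calc (n : ℝ) ^ (1 - 2 * β - 16 * e) ≤ (n : ℝ) ^ ((1 - e) + (-(2 * (β + 3 * e)) - 2 * e)) :=
        Real.rpow_le_rpow_of_exponent_le hn1 (by linarith)
    _ = (n : ℝ) ^ (1 - e) * (n : ℝ) ^ (-(2 * (β + 3 * e)) - 2 * e) := Real.rpow_add hn0 _ _
    _ ≤ (((PM n).1.card : ℝ) * (PM n).2) * (n : ℝ) ^ (-(2 * (β + 3 * e)) - 2 * e) :=
        mul_le_mul_of_nonneg_right h2 h7.le
    _ = (((PM n).1.card : ℝ) * (n : ℝ) ^ (-(2 * (β + 3 * e)) - 2 * e)) * (PM n).2 := by ring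
    _ ≤ (S.card : ℝ) * (PM n).2 := mul_le_mul_of_nonneg_right hn' (Nat.cast_nonneg _)

/-- the final statement -/
theorem fin3 (hBC : S_BC3) (hVAL : S_VAL3) (hWIN : S_WIN2) (hSP : S_SP2) (hEX : S_EX)
    (hH : ∃ δ η : ℝ, Hoh δ η) (β ε : ℝ) (hβ : 0 < β) (hε : 0 < ε) (hβε : 2 * β + ε < 1 / 2) :
    ∃ κ δ : ℝ, 0 < κ ∧ 0 < δ ∧ ∃ H : ℕ → ℕ, (∀ k, 1 ≤ H k) ∧
      (∀ k : ℕ, 1 ≤ k → (H k : ℝ) ≤ (k : ℝ) ^ (1 - κ)) ∧ (∀ k, H k ≠ 1 → k.Prime) ∧
      (∀ᶠ X : ℕ in atTop, ({k : ℕ | k < X ∧ H k ≠ 1}.ncard : ℝ) ≤ (X : ℝ) ^ (1 - β)) ∧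
      (∀ (Ω : Type) [MeasurableSpace Ω] (μ : Measure Ω) [IsProbabilityMeasure μ] (Y : ℕ → Ω → ℕ),
        Model μ Y H δ → ∀ᵐ ω ∂μ, ∀ᶠ n : ℕ in atTop, Odd n →
          (n : ℝ) ^ (1 - 2 * β - ε) ≤ (Reps {j | ∃ q : ℕ, q.Prime ∧ Y q ω = j} n).ncard) ∧
      ∃ μ : Measure (ℕ → ℕ), IsProbabilityMeasure μ ∧ Model μ (fun k ω => ω k) H δ ∧
        ∀ᵐ ω ∂μ, ∀ q : ℕ, q.Prime → rough δ (ω q) := by
  classical
  obtain ⟨δh, η, hH⟩ := hH
  have hH' : Hoh (max δh (1 / 2)) η := hoh_mono hH (le_max_left _ _) (max_lt hH.2.1 (by norm_num))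
  obtain ⟨κ, hκ0, hκ1, u₀, h1, h2⟩ := hSP (max δh (1 / 2)) (β + ε / 16) (le_max_right _ _) hH'.2.1
    (by linarith) (by linarith)
  obtain ⟨δ, hδ0, hδ1, h3⟩ := law3 hBC hVAL hWIN _ η hH' (le_max_right _ _) β (ε / 16) hβ (by linarith)
    (by linarith) u₀
  refine ⟨κ, δ, hκ0, hδ0, HH2 (max δh (1 / 2)) (β + ε / 16) u₀, HH2_pos _ _ u₀, h1, HH2_prime _ _ u₀, ?_, ?_,
    hEX _ δ hδ0 hδ1 (HH2_pos _ _ u₀)⟩
  · filter_upwards [h2 β (by linarith)] with X hX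
    refine le_trans (le_of_eq ?_) hX
    rw [← Set.ncard_coe_finset]
    congr 2
    ext k
    simp
  · intro Ω _ μ _ Y hM
    have h4 := h3 Ω μ Y hM
    have h5 : 1 - 2 * β - 16 * (ε / 16) = 1 - 2 * β - ε := by ring
    rw [h5] at h4
    exact h4

end Pool.Agent.D0H23.PP
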