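import Pool.Agent.D0H23.PP.Stm
import Pool.Agent.D0H86.PW.Stm

set_option autoImplicit false

/-!
# Project PP: primes in short intervals, from the module N1 of project PW
-/

namespace Pool.Agent.D0H23.PP

open Finset Filter

theorem hoh_of (h : Pool.Agent.D0H86.PW.S_N1) : ∃ δ η : ℝ, Hoh δ η := by
  classical
  obtain ⟨δ, η, h0, h1, h2, u₀, h⟩ := h
  refine ⟨δ, η, h0, h1, h2, u₀, ?_⟩
  intro u H s hu hH1 hH2 hs
  refine (h u H s hu hH1 hH2 hs).trans ?_
  have hle : (Pool.Agent.D0H86.PW.hit u H {s}).card ≤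
      ((Ico (2 ^ u + s) (2 ^ u + s + H)).filter Nat.Prime).card := by
    apply card_le_card_of_injOn (fun T => T + s)
    · intro T hT
      rw [mem_coe, Pool.Agent.D0H86.PW.hit, mem_filter, mem_Ico] at hT
      obtain ⟨⟨h3, h4⟩, s', hs', h5⟩ := hT
      rw [mem_singleton] at hs'
      subst hs'
      rw [mem_coe, mem_filter, mem_Ico]
      refine ⟨⟨?_, ?_⟩, h5⟩
      · show 2 ^ u + s' ≤ T + s'
        omega
      · show T + s' < 2 ^ u + s' + H
        omega
    · intro T _ T' _ hTT
      simpa using hTT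
  exact_mod_cast hle

end Pool.Agent.D0H23.PP
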