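import Mathlib

set_option autoImplicit false

/-!
# Project PP: sparsely perturbed primes (MP_0ad054_nt, slot 4)

THEOREM (final). There are `κ, δ > 0` and lengths `H k ≥ 1` with `H k ≤ k ^ (1 - κ)`, `H k = 1` for all but at most
`X ^ (1 - κ)` of the `k < X`, such that for independent random `Y k` in `[k, k + H k)`, each of which takes every
value without small prime factors with probability at least `1 / H k`, almost surely every large odd `n` has at least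
`n ^ κ` representations `n = x² + y² + z² + w²` for which `p = x² + 3y² + 5z² + 7w²` and `p - 2` both belong to
`{Y q : q prime}`. This file needs only Mathlib; prove `theorem t_XX : S_XX` (or with the hypotheses named in the
docstring) in `Pool/Agent/D0H<your number>/PP/`.
-/

namespace Pool.Agent.D0H23.PP

open Finset Filter MeasureTheory ProbabilityTheory

/-- all prime factors of `j` are larger than `j ^ δ` -/
def rough (δ : ℝ) (j : ℕ) : Prop := ∀ q : ℕ, q.Prime → q ∣ j → (j : ℝ) ^ δ < q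

/-- independent random integers `Y k`, almost surely in `[k, k + H k)`, which take every value there without prime
factors `≤ j ^ δ` with probability at least `1 / H k` -/
structure Model {Ω : Type} [MeasurableSpace Ω] (μ : Measure Ω) (Y : ℕ → Ω → ℕ) (H : ℕ → ℕ) (δ : ℝ) : Prop where
  meas : ∀ k, Measurable (Y k)
  indep : iIndepFun Y μ
  window : ∀ k, ∀ᵐ ω ∂μ, k ≤ Y k ω ∧ Y k ω < k + H k
  low : ∀ k j, k ≤ j → j < k + H k → rough δ j → 1 / (H k : ℝ) ≤ μ.real {ω | Y k ω = j}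

open Classical in
/-- the points of `T` that are hit by the values of `b` on `C` -/
noncomputable def hitp (C T : Finset ℕ) (b : ℕ → ℕ) : Finset ℕ := T.filter (fun t => ∃ k ∈ C, b k = t)

open Classical in
/-- the points `t` of `M` such that `t` is hit on `C` and `t - 2` is hit on `C'` -/
noncomputable def hit2 (C C' M : Finset ℕ) (b : ℕ → ℕ) : Finset ℕ :=
  M.filter (fun t => (∃ k ∈ C, b k = t) ∧ ∃ k ∈ C', b k = t - 2)

/-- **1 AV** (25 min). Few hits are unlikely.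

Proof: if fewer than `r` points of `T` are hit, then for the set `U ⊆ T` of the points hit, `#U < r`, no `Y k`,
`k ∈ C`, lies in `T \ U`. For fixed `U` this has probability (`iIndepFun.measure_inter_preimage_eq_mul`)
`∏_{k ∈ C} (1 - μ (Y k ∈ T \ U)) ≤ exp (- ∑_k μ (Y k ∈ T \ U)) = exp (- ∑_{t ∈ T \ U} ∑_k μ (Y k = t))
≤ exp (- l (#T - r))`. The number of `U` with `#U < r` is at most `∑_{j < r} #T ^ j ≤ (#T + 1) ^ r`. -/
def S_AV : Prop := ∀ (Ω : Type) [MeasurableSpace Ω] (μ : Measure Ω) [IsProbabilityMeasure μ] (Y : ℕ → Ω → ℕ),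
  (∀ k, Measurable (Y k)) → iIndepFun Y μ → ∀ (C T : Finset ℕ) (l : ℝ), 0 ≤ l →
  (∀ t ∈ T, l ≤ ∑ k ∈ C, μ.real {ω | Y k ω = t}) → ∀ r : ℕ,
  μ.real {ω | (hitp C T (fun k => Y k ω)).card < r} ≤
    ((T.card : ℝ) + 1) ^ r * Real.exp (-(l * ((T.card : ℝ) - r)))

/-- **2 TWO** (30 min; theorem `t_TWO : S_AV → S_TWO`). Two rounds.

Proof: with `U = hitp C M`: the event is contained in `{#U < s}` and the union over the sets `U₀ ⊆ M`, `#U₀ ≥ s`, of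
`{U = U₀} ∩ {#hitp C' (U₀ - 2) < r}`, where `U₀ - 2` is the image of `U₀` under `t ↦ t - 2` (injective, `t ≥ 2`). The
first set depends on `Y k`, `k ∈ C`, the second one on `Y k`, `k ∈ C'`, so they are independent
(`iIndepFun.indepFun_finset`; all sets in the countable discrete product are measurable), and the second one has
probability at most `(#U₀ + 1) ^ r exp (- l (#U₀ - r)) ≤ (#M + 1) ^ r exp (- l (s - r))` (S_AV). Sum over `U₀`. -/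
def S_TWO : Prop := ∀ (Ω : Type) [MeasurableSpace Ω] (μ : Measure Ω) [IsProbabilityMeasure μ] (Y : ℕ → Ω → ℕ),
  (∀ k, Measurable (Y k)) → iIndepFun Y μ → ∀ (C C' M : Finset ℕ) (l : ℝ), 0 ≤ l → Disjoint C C' →
  (∀ t ∈ M, 2 ≤ t ∧ l ≤ ∑ k ∈ C, μ.real {ω | Y k ω = t} ∧ l ≤ ∑ k ∈ C', μ.real {ω | Y k ω = t - 2}) →
  ∀ r s : ℕ, r ≤ s → s ≤ M.card →
  μ.real {ω | (hit2 C C' M (fun k => Y k ω)).card < r} ≤
    ((M.card : ℝ) + 1) ^ s * Real.exp (-(l * ((M.card : ℝ) - s))) +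
      ((M.card : ℝ) + 1) ^ r * Real.exp (-(l * ((s : ℝ) - r)))

/-- **3 BC** (30 min; theorem `t_BC : S_TWO → S_BC`). Borel-Cantelli.

Proof: `K = #(M n)`, `l = n ^ (-1/16)`, `s = ⌈n ^ (1/4)⌉`, `r = ⌈n ^ (1/16)⌉`. As `1/3 - 1/16 > 1/4` and
`1/4 - 1/16 > 1/16`, both terms of S_TWO are at most `exp (- n ^ (1/16))`, hence `≤ n ^ (-2)`, for large `n`
(`log (K + 1) ≤ log (8 n + 1)`; for large `K` use `K - s ≥ n ^ (1/3) - s`). Sum over `n`: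
`measure_limsup_atTop_eq_zero` or `ae_eventually_notMem`. -/
def S_BC : Prop := ∀ (Ω : Type) [MeasurableSpace Ω] (μ : Measure Ω) [IsProbabilityMeasure μ] (Y : ℕ → Ω → ℕ),
  (∀ k, Measurable (Y k)) → iIndepFun Y μ → ∀ C C' M : ℕ → Finset ℕ, (∀ n, Disjoint (C n) (C' n)) →
  (∀ᶠ n : ℕ in atTop, Odd n → (n : ℝ) ^ (1 / 3 : ℝ) ≤ (M n).card ∧ (M n).card ≤ 8 * n ∧ ∀ t ∈ M n, 2 ≤ t ∧
    (n : ℝ) ^ (-(1 / 16) : ℝ) ≤ ∑ k ∈ C n, μ.real {ω | Y k ω = t} ∧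
    (n : ℝ) ^ (-(1 / 16) : ℝ) ≤ ∑ k ∈ C' n, μ.real {ω | Y k ω = t - 2}) →
  ∀ᵐ ω ∂μ, ∀ᶠ n : ℕ in atTop, Odd n →
    (n : ℝ) ^ (1 / 16 : ℝ) ≤ (hit2 (C n) (C' n) (M n) (fun k => Y k ω)).card

/-- the form -/
def pf (X : Fin 4 → ℤ) : ℤ := X 0 ^ 2 + 3 * X 1 ^ 2 + 5 * X 2 ^ 2 + 7 * X 3 ^ 2

/-- the divisor bound (library `Pool.Agent.H510R2.divisor_bound`) -/
def S_DIV : Prop := ∀ ε : ℝ, 0 < ε → ∃ C : ℝ, 0 < C ∧ ∀ n : ℕ, 1 ≤ n → (n.divisors.card : ℝ) ≤ C * (n : ℝ) ^ ε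

/-- **4 MULT** (25 min; theorem `t_MULT : S_DIV → S_MULT`). Few quadruples have the same value.

Proof: write `X = (x, y, z, w)`. `5 n - m = 4 x² + 2 (y² - w²)`, so `2 (y - w) (y + w) = 5 n - m - 4 x²`. `|x| ≤ √n`: at
most `2 √n + 1` values. If `5 n - m - 4 x² = e ≠ 0`, `|e| ≤ 5 n`..., then `y - w` divides `e`: at most `2 d(|e|)`
values of `y - w`, each determines `y + w`, so `(y, w)`, and `z² = n - x² - y² - w²` has at most two solutions. There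
are at most two `x` with `e = 0`; for these `w = ± y`, `|y| ≤ √n` and at most two `z`. -/
def S_MULT : Prop := ∃ C : ℝ, 0 < C ∧ ∀ n : ℕ, 1 ≤ n → ∀ (m : ℤ) (F : Finset (Fin 4 → ℤ)),
  (∀ X ∈ F, ∑ i, X i ^ 2 = n ∧ pf X = m) → (F.card : ℝ) ≤ C * (n : ℝ) ^ (13 / 24 : ℝ)

/-- the library theorem `Pool.Agent.W65.FS.uniform` -/
def S_UNI : Prop := ∀ ε : ℝ, 0 < ε → ∃ δ : ℝ, 0 < δ ∧ ∃ c : ℝ, 0 < c ∧ ∀ n : ℕ, Odd n →
  ∃ S : Finset (Fin 4 → ℤ), c * (n : ℝ) ^ (1 - ε) ≤ S.card ∧ ∀ X ∈ S, ∑ i, X i ^ 2 = n ∧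
    (∀ q : ℕ, q.Prime → (q : ℤ) ∣ pf X * (pf X - 2) → (n : ℝ) ^ δ < q) ∧ 0 < pf X ∧ pf X - 2 ≠ 0

/-- **5 VAL** (25 min; theorem `t_VAL : S_UNI → S_MULT → S_VAL`). Many values of the form.

Proof: S_UNI with `ε = 1/24`, `M` the set of the values `(pf X).toNat`, `X ∈ S`; `n ≤ pf X ≤ 7 n`, the fibres have at most
`C n ^ (13/24)` elements, so `#M ≥ (c / C) n ^ (10/24) ≥ n ^ (1/3)`. `δ' = δ / 2` (or smaller than 1/2):
`(7 n) ^ δ' < n ^ δ`. `M ⊆ [n, 7 n]`. -/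
def S_VAL : Prop := ∃ δ : ℝ, 0 < δ ∧ δ < 1 ∧ ∀ᶠ n : ℕ in atTop, Odd n → ∃ M : Finset ℕ,
  (n : ℝ) ^ (1 / 3 : ℝ) ≤ M.card ∧ M.card ≤ 8 * n ∧ ∀ m ∈ M, n ≤ m ∧ m ≤ 7 * n ∧ rough δ m ∧ rough δ (m - 2) ∧
    ∃ X : Fin 4 → ℤ, ∑ i, X i ^ 2 = n ∧ pf X = m

/-- length of the short intervals: `2 ^ bb` -/
noncomputable def bb (δ : ℝ) (u : ℕ) : ℕ := ⌈δ * u⌉₊

/-- the exponent of the sparsity -/
noncomputable def kk (δ : ℝ) : ℝ := min ((1 - δ) / 4) (1 / 40)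

/-- length of the blocks: `2 ^ aa` -/
noncomputable def aa (δ : ℝ) (u : ℕ) : ℕ := bb δ u + 1 + ⌊kk δ * u⌋₊

/-- the perturbed numbers: in the first `2 ^ (bb + 1)` places of a block of length `2 ^ aa` -/
def DD (δ : ℝ) (k : ℕ) : Prop := k % 2 ^ aa δ (Nat.log 2 k) < 2 ^ (bb δ (Nat.log 2 k) + 1)

open Classical in
/-- the lengths of the perturbations -/
noncomputable def HH (δ : ℝ) (u₀ k : ℕ) : ℕ := if u₀ ≤ Nat.log 2 k ∧ DD δ k then 2 ^ (aa δ (Nat.log 2 k) + 5) else 1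

open Classical in
/-- the first class of primes `< N` -/
noncomputable def CA (δ : ℝ) (N : ℕ) : Finset ℕ :=
  (range N).filter (fun k => k.Prime ∧ k % 2 ^ aa δ (Nat.log 2 k) < 2 ^ bb δ (Nat.log 2 k))

open Classical in
/-- the second class of primes `< N` -/
noncomputable def CB (δ : ℝ) (N : ℕ) : Finset ℕ :=
  (range N).filter (fun k => k.Prime ∧ 2 ^ bb δ (Nat.log 2 k) ≤ k % 2 ^ aa δ (Nat.log 2 k) ∧ DD δ k)

/-- primes in short intervals (from `Pool.Agent.D0H42.PW.t_N1`) -/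
def Hoh (δ η : ℝ) : Prop := 0 < δ ∧ δ < 1 ∧ 0 < η ∧ ∃ u₀ : ℕ, ∀ u H s : ℕ, u₀ ≤ u →
  (2 : ℝ) ^ (δ * u) ≤ H → H ≤ 2 ^ u → s ≤ 2 ^ (u + 1) →
  η * H / u ≤ (((Ico (2 ^ u + s) (2 ^ u + s + H)).filter Nat.Prime).card : ℝ)

/-- **6 WIN** (40 min). Every large `t` is in the windows of many primes of both classes.

Proof: `v = log₂ t`. Case 1, `t ≥ 2 ^ v + 2 ^ (aa v + 1)`: `u = v`, `I = 2 ^ aa * (t / 2 ^ aa - 1)`, so `2 ^ u ≤ I`,
`I + 2 ^ aa ≤ t < I + 2 ^ (aa + 1)`. Case 2, `t < 2 ^ v + 2 ^ (aa v + 1)`: `u = v - 1`, `I = 2 ^ v - 2 ^ aa u`; then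
`t - I < 2 ^ (aa v + 1) + 2 ^ aa u ≤ 2 ^ (aa u + 4)` because `aa v ≤ aa u + 2`. In both cases the `k` in
`[I, I + 2 ^ (bb u + 1))` have `log₂ k = u`, `k % 2 ^ aa u = k - I`, `k ≤ t < k + 2 ^ (aa u + 5)`. By `Hoh` (with `H = 2 ^ bb u`, and
`s = I - 2 ^ u` for the first class, `s = I + 2 ^ bb u - 2 ^ u` for the second) at least `η 2 ^ bb / u` of those in
`[I, I + 2 ^ bb)`, and in `[I + 2 ^ bb, I + 2 ^ (bb + 1))`, are prime. So the sums are at least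
`η 2 ^ bb / (u 2 ^ (aa + 5)) = η / (64 u 2 ^ ⌊kk u⌋) ≥ t ^ (-1/32)` for large `t` (`kk ≤ 1/40`). -/
def S_WIN : Prop := ∀ δ η : ℝ, Hoh δ η → ∀ u₀ : ℕ, ∀ᶠ t : ℕ in atTop, ∀ N : ℕ, t < N →
  (t : ℝ) ^ (-(1 / 32) : ℝ) ≤ ∑ k ∈ (CA δ N).filter (fun k => k ≤ t ∧ t < k + HH δ u₀ k), 1 / (HH δ u₀ k : ℝ) ∧
  (t : ℝ) ^ (-(1 / 32) : ℝ) ≤ ∑ k ∈ (CB δ N).filter (fun k => k ≤ t ∧ t < k + HH δ u₀ k), 1 / (HH δ u₀ k : ℝ)

open Classical in
/-- **7 SP** (30 min). The perturbation is sparse and short.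

Proof: for large `u`, `aa u + 5 ≤ (1 - kk / 2) u` (`δ + kk ≤ 1 - 3 kk`), so `2 ^ (aa + 5) ≤ k ^ (1 - kk / 2)`; `u₀` is chosen
so. The `k ∈ [2 ^ u, 2 ^ (u + 1))` with `DD k` are at most `(2 ^ (u - aa) + 1) 2 ^ (bb + 1) ≤ 2 ^ (u + 2 - ⌊kk u⌋)`
for large `u`; sum over the `u ≤ log₂ X`: each term is at most `8 X ^ (1 - kk)` (for `u ≤ log₂ X`, as `u - kk u` is increasing),
there are `log₂ X + 1` terms. -/
def S_SP : Prop := ∀ δ : ℝ, 0 < δ → δ < 1 → ∃ κ : ℝ, 0 < κ ∧ κ ≤ 1 / 16 ∧ ∃ u₀ : ℕ,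
  (∀ k : ℕ, 1 ≤ k → (HH δ u₀ k : ℝ) ≤ (k : ℝ) ^ (1 - κ)) ∧
  ∀ᶠ X : ℕ in atTop, (((range X).filter (fun k => HH δ u₀ k ≠ 1)).card : ℝ) ≤ (X : ℝ) ^ (1 - κ)

/-- **8 EX** (25 min). The model exists, with all values at the primes rough.

Proof: `Y k` uniform on `R k = {j ∈ [k, k + H k) : rough δ j ∨ j = k}`, `#(R k) ≤ H k`, product measure
(`Measure.infinitePi`, `iIndepFun_infinitePi`; see helper12's `Pool/Agent/D0H12/PW/Ex.lean`). A prime `q` is rough because `δ < 1`: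
`q ^ δ < q`. -/
def S_EX : Prop := ∀ (H : ℕ → ℕ) (δ : ℝ), 0 < δ → δ < 1 → (∀ k, 1 ≤ H k) → ∃ μ : Measure (ℕ → ℕ),
  IsProbabilityMeasure μ ∧ Model μ (fun k ω => ω k) H δ ∧ ∀ᵐ ω ∂μ, ∀ q : ℕ, q.Prime → rough δ (ω q)

end Pool.Agent.D0H23.PP
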