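import Pool.Agent.D0H23.PP.Stm

set_option autoImplicit false

/-!
# Project PP, module TWO: two rounds
-/

namespace Pool.Agent.D0H23.PP

open Finset Filter MeasureTheory ProbabilityTheory

theorem t_TWO (hAV : S_AV) : S_TWO := by
  classical
  intro Ω _ μ _ Y hY hind C C' M l hl hd hM r s hrs hsM
  -- the event of the second round
  set E : Finset ℕ → Set Ω := fun U₀ =>
    {ω | (hitp C' (U₀.image fun t => t - 2) (fun k => Y k ω)).card < r} with hE
  set A : Finset ℕ → Set Ω := fun U₀ => {ω | hitp C M (fun k => Y k ω) = U₀} with hA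
  set B : ℝ := ((M.card : ℝ) + 1) ^ r * Real.exp (-(l * ((s : ℝ) - r))) with hB
  set P : Finset (Finset ℕ) := M.powerset.filter fun U₀ => s ≤ U₀.card with hP
  have hsub : {ω | (hit2 C C' M (fun k => Y k ω)).card < r} ⊆
      {ω | (hitp C M (fun k => Y k ω)).card < s} ∪ ⋃ U₀ ∈ P, (A U₀ ∩ E U₀) := by
    intro ω hω
    rw [Set.mem_ofPred_eq] at hω
    by_cases h1 : (hitp C M (fun k => Y k ω)).card < s
    · exact Or.inl h1
    · right
      rw [Set.mem_iUnion₂]
      refine ⟨hitp C M (fun k => Y k ω), ?_, rfl, ?_⟩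
      · rw [hP, mem_filter, mem_powerset]
        exact ⟨filter_subset _ _, not_lt.mp h1⟩
      · rw [hE]
        simp only
        rw [Set.mem_ofPred_eq]
        refine lt_of_le_of_lt ?_ hω
        have h2 : hitp C' ((hitp C M (fun k => Y k ω)).image fun t => t - 2) (fun k => Y k ω) ⊆
            (hit2 C C' M (fun k => Y k ω)).image (fun t => t - 2) := by
          intro j hj
          rw [hitp, mem_filter, mem_image] at hj
          obtain ⟨⟨t, ht, rfl⟩, h3⟩ := hj
          rw [hitp, mem_filter] at ht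
          rw [mem_image]
          refine ⟨t, ?_, rfl⟩
          rw [hit2, mem_filter]
          exact ⟨ht.1, ht.2, h3⟩
        exact (card_le_card h2).trans card_image_le
  have hmeasA : ∀ U₀, ∃ S : Set (C → ℕ), A U₀ = (fun ω (i : C) => Y i ω) ⁻¹' S := by
    intro U₀
    refine ⟨{g | M.filter (fun t => ∃ k : C, g k = t) = U₀}, ?_⟩
    ext ω
    rw [hA]
    simp only [Set.mem_ofPred_eq, Set.mem_preimage, hitp]
    have : (M.filter fun t => ∃ k ∈ C, Y k ω = t) = M.filter (fun t => ∃ k : C, Y k ω = t) := by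
      apply filter_congr
      intro t _
      constructor
      · rintro ⟨k, hk, h⟩
        exact ⟨⟨k, hk⟩, h⟩
      · rintro ⟨k, h⟩
        exact ⟨k, k.2, h⟩
    rw [this]
  have hmeasE : ∀ U₀, ∃ S : Set (C' → ℕ), E U₀ = (fun ω (i : C') => Y i ω) ⁻¹' S := by
    intro U₀
    refine ⟨{g | ((U₀.image fun t => t - 2).filter (fun t => ∃ k : C', g k = t)).card < r}, ?_⟩
    ext ω
    rw [hE]
    simp only [Set.mem_ofPred_eq, Set.mem_preimage, hitp]
    have : ((U₀.image fun t => t - 2).filter fun t => ∃ k ∈ C', Y k ω = t) =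
        (U₀.image fun t => t - 2).filter (fun t => ∃ k : C', Y k ω = t) := by
      apply filter_congr
      intro t _
      constructor
      · rintro ⟨k, hk, h⟩
        exact ⟨⟨k, hk⟩, h⟩
      · rintro ⟨k, h⟩
        exact ⟨k, k.2, h⟩
    rw [this]
  have hIF := hind.indepFun_finset C C' hd hY
  have hmul : ∀ U₀, μ.real (A U₀ ∩ E U₀) = μ.real (A U₀) * μ.real (E U₀) := by
    intro U₀
    obtain ⟨S, hS⟩ := hmeasA U₀
    obtain ⟨S', hS'⟩ := hmeasE U₀
    rw [hS, hS', measureReal_def, measureReal_def, measureReal_def,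
      hIF.measure_inter_preimage_eq_mul S S' (MeasurableSet.of_discrete) (MeasurableSet.of_discrete),
      ENNReal.toReal_mul]
  have hEb : ∀ U₀ ∈ P, μ.real (E U₀) ≤ B := by
    intro U₀ hU
    rw [hP, mem_filter, mem_powerset] at hU
    have hinj : (U₀.image fun t => t - 2).card = U₀.card := by
      apply card_image_of_injOn
      intro a ha b hb hab
      have h1 := (hM a (hU.1 ha)).1
      have h2 := (hM b (hU.1 hb)).1
      simp only at hab
      omega
    have h1 := hAV Ω μ Y hY hind C' (U₀.image fun t => t - 2) l hl (by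
      intro j hj
      rw [mem_image] at hj
      obtain ⟨t, ht, rfl⟩ := hj
      exact (hM t (hU.1 ht)).2.2) r
    refine h1.trans ?_
    rw [hinj, hB]
    have h2 : (U₀.card : ℝ) ≤ M.card := by exact_mod_cast card_le_card hU.1
    have h3 : (s : ℝ) ≤ U₀.card := by exact_mod_cast hU.2
    apply mul_le_mul
    · exact pow_le_pow_left₀ (by positivity) (by linarith) r
    · apply Real.exp_le_exp.mpr
      nlinarith
    · positivity
    · positivity
  have hB0 : 0 ≤ B := by positivity
  have hmA : ∀ U₀, MeasurableSet (A U₀) := by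
    intro U₀
    obtain ⟨S, hS⟩ := hmeasA U₀
    have hm : Measurable (fun ω (i : C) => Y i ω) := measurable_pi_lambda _ fun i => hY i
    rw [hS]
    exact hm (MeasurableSet.of_discrete)
  have hsumA : ∑ U₀ ∈ P, μ.real (A U₀) ≤ 1 := by
    rw [← measureReal_biUnion_finset]
    · exact measureReal_le_one
    · intro U hU V hV hUV
      rw [Function.onFun, Set.disjoint_left]
      intro ω h1 h2
      exact hUV (h1.symm.trans h2)
    · intro U₀ _
      exact hmA U₀
  calc μ.real {ω | (hit2 C C' M (fun k => Y k ω)).card < r}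
      ≤ μ.real ({ω | (hitp C M (fun k => Y k ω)).card < s} ∪ ⋃ U₀ ∈ P, (A U₀ ∩ E U₀)) :=
        measureReal_mono hsub
    _ ≤ μ.real {ω | (hitp C M (fun k => Y k ω)).card < s} + μ.real (⋃ U₀ ∈ P, (A U₀ ∩ E U₀)) :=
        measureReal_union_le _ _
    _ ≤ ((M.card : ℝ) + 1) ^ s * Real.exp (-(l * ((M.card : ℝ) - s))) + B := by
        apply add_le_add
        · exact hAV Ω μ Y hY hind C M l hl (fun t ht => (hM t ht).2.1) s
        · calc μ.real (⋃ U₀ ∈ P, (A U₀ ∩ E U₀)) ≤ ∑ U₀ ∈ P, μ.real (A U₀ ∩ E U₀) :=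
                measureReal_biUnion_finset_le _ _
            _ = ∑ U₀ ∈ P, μ.real (A U₀) * μ.real (E U₀) := sum_congr rfl fun U₀ _ => hmul U₀
            _ ≤ ∑ U₀ ∈ P, μ.real (A U₀) * B :=
                sum_le_sum fun U₀ hU => mul_le_mul_of_nonneg_left (hEb U₀ hU) measureReal_nonneg
            _ = (∑ U₀ ∈ P, μ.real (A U₀)) * B := by rw [sum_mul]
            _ ≤ 1 * B := mul_le_mul_of_nonneg_right hsumA hB0
            _ = B := one_mul _

end Pool.Agent.D0H23.PP
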