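import Pool.Agent.D0H23.PP.Stm
import Pool.Agent.W65.FS.Final
import Pool.Agent.H510R2.Div

set_option autoImplicit false

/-!
# Project PP: the inputs of the starting library
-/

namespace Pool.Agent.D0H23.PP

theorem t_DIV : S_DIV := Pool.Agent.H510R2.divisor_bound

theorem t_UNI : S_UNI := by
  intro ε hε
  obtain ⟨K, δ, hδ, c, hc, h⟩ := Pool.Agent.W65.FS.uniform ε hε
  refine ⟨δ, hδ, c, hc, fun n hn => ?_⟩
  obtain ⟨S, h1, h2⟩ := h n hn
  exact ⟨S, h1, fun X hX => ⟨(h2 X hX).1, (h2 X hX).2.1, (h2 X hX).2.2.1, (h2 X hX).2.2.2.1⟩⟩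

end Pool.Agent.D0H23.PP
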