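import Pool.Agent.D0H65.PP.Val
import Pool.Agent.D0H23.PP.Stm3

/-! Project PP (helper23), module VAL3: many values with equally many representations -/

set_option autoImplicit false

namespace Pool.Agent.D0H23.PP

open Finset Filter
open Pool.Agent.D0H65.PP (pf_bounds)

theorem t_VAL3 : S_UNI → S_MULT2 → S_VAL3 := by
  intro hU hM ε hε hε1
  classical
  obtain ⟨δ, hδ, c, hc, hS⟩ := hU (ε / 3) (by positivity)
  obtain ⟨C, hC, hM⟩ := hM (ε / 3) (by positivity)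
  refine ⟨min (δ / 2) (1 / 2), lt_min (by linarith) (by norm_num),
    lt_of_le_of_lt (min_le_right _ _) (by norm_num), ?_⟩
  set δ' := min (δ / 2) (1 / 2) with hδ'
  have hδ0 : 0 < δ' := lt_min (by linarith) (by norm_num)
  have hδ2 : 2 * δ' ≤ δ := by
    have := min_le_left (δ / 2) (1 / 2)
    linarith
  have hlog2 : 0 < Real.log 2 := Real.log_pos (by norm_num)
  have L1 : ∀ᶠ n : ℕ in atTop, C ≤ (n : ℝ) := tendsto_natCast_atTop_atTop.eventually_ge_atTop _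
  have L2 : ∀ᶠ n : ℕ in atTop, 2 * Real.log n / Real.log 2 + 1 ≤ (n : ℝ) ^ (ε / 6 : ℝ) := by
    have g1 : ∀ᶠ x : ℝ in atTop, Real.log x ≤ (Real.log 2 / 4) * x ^ (ε / 6 : ℝ) := by
      have := (isLittleO_log_rpow_atTop (by positivity : (0 : ℝ) < ε / 6)).bound
        (by positivity : (0 : ℝ) < Real.log 2 / 4)
      filter_upwards [this, eventually_gt_atTop 0] with x hx hx0
      rw [Real.norm_eq_abs, Real.norm_eq_abs, abs_of_nonneg (Real.rpow_nonneg hx0.le _)] at hx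
      exact (le_abs_self _).trans hx
    have g2 : ∀ᶠ x : ℝ in atTop, (2 : ℝ) ≤ x ^ (ε / 6 : ℝ) :=
      (tendsto_rpow_atTop (by positivity : (0 : ℝ) < ε / 6)).eventually_ge_atTop _
    have g3 : ∀ᶠ x : ℝ in atTop, 2 * Real.log x / Real.log 2 + 1 ≤ x ^ (ε / 6 : ℝ) := by
      filter_upwards [g1, g2] with x h1 h2
      have : 2 * Real.log x / Real.log 2 ≤ x ^ (ε / 6 : ℝ) / 2 := by
        rw [div_le_iff₀ hlog2]
        linarith
      linarith
    exact tendsto_natCast_atTop_atTop.eventually g3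
  have L3 : ∀ᶠ n : ℕ in atTop, C / c ≤ (n : ℝ) ^ (ε / 6 : ℝ) :=
    ((tendsto_rpow_atTop (by positivity : (0 : ℝ) < ε / 6)).comp
      tendsto_natCast_atTop_atTop).eventually_ge_atTop _
  have L4 : ∀ᶠ n : ℕ in atTop, 2 / c ≤ (n : ℝ) ^ (ε / 2 : ℝ) :=
    ((tendsto_rpow_atTop (by positivity : (0 : ℝ) < ε / 2)).comp
      tendsto_natCast_atTop_atTop).eventually_ge_atTop _
  filter_upwards [L1, L2, L3, L4, eventually_ge_atTop 7] with n l1 l2 l3 l4 hn7 hodd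
  obtain ⟨S, hS1, hS2⟩ := hS n hodd
  have hn1 : (1 : ℝ) ≤ n := by exact_mod_cast (by omega : 1 ≤ n)
  have hn0 : (0 : ℝ) < n := by linarith
  have hb : ∀ X ∈ S, (n : ℤ) ≤ pf X ∧ pf X ≤ 7 * n := fun X hX => pf_bounds X n (hS2 X hX).1
  have hcast : ∀ X ∈ S, (((pf X).toNat : ℕ) : ℤ) = pf X := by
    intro X hX
    apply Int.toNat_of_nonneg
    have := (hb X hX).1
    omega
  obtain ⟨v, hv⟩ : ∃ v : (Fin 4 → ℤ) → ℕ, v = fun X => (pf X).toNat := ⟨_, rfl⟩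
  have hcast' : ∀ X ∈ S, ((v X : ℕ) : ℤ) = pf X := by
    intro X hX
    rw [hv]
    exact hcast X hX
  obtain ⟨mu, hmu⟩ : ∃ mu : ℕ → ℕ, mu = fun m => (S.filter fun X => v X = m).card := ⟨_, rfl⟩
  have hmu1 : ∀ m, (mu m : ℝ) ≤ C * (n : ℝ) ^ (1 / 2 + ε / 3 : ℝ) := by
    intro m
    rw [hmu]
    refine hM n (by omega) m _ ?_
    intro X hX
    obtain ⟨h1, h2⟩ := Finset.mem_filter.mp hX
    refine ⟨(hS2 X h1).1, ?_⟩
    rw [← hcast' X h1, h2]
  have hmu2 : ∀ m, mu m ≤ n ^ 2 := by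
    intro m
    have h1 : (n : ℝ) ^ (1 / 2 + ε / 3 : ℝ) ≤ (n : ℝ) ^ (1 : ℝ) :=
      Real.rpow_le_rpow_of_exponent_le hn1 (by linarith)
    rw [Real.rpow_one] at h1
    have h2 : (mu m : ℝ) ≤ (n : ℝ) ^ 2 := by
      calc (mu m : ℝ) ≤ C * (n : ℝ) ^ (1 / 2 + ε / 3 : ℝ) := hmu1 m
        _ ≤ n * n := mul_le_mul l1 h1 (Real.rpow_nonneg hn0.le _) hn0.le
        _ = _ := by ring
    exact_mod_cast h2
  obtain ⟨J, hJ⟩ : ∃ J, J = Nat.log 2 (n ^ 2) := ⟨_, rfl⟩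
  have hJ1 : (J : ℝ) + 1 ≤ (n : ℝ) ^ (ε / 6 : ℝ) := by
    have a1 : ((2 ^ J : ℕ) : ℝ) ≤ ((n ^ 2 : ℕ) : ℝ) := by
      rw [hJ]
      exact_mod_cast Nat.pow_log_le_self 2 (by positivity)
    push_cast at a1
    have a2 := Real.log_le_log (by positivity) a1
    rw [Real.log_pow, Real.log_pow] at a2
    have a3 : (J : ℝ) ≤ 2 * Real.log n / Real.log 2 := by
      rw [le_div_iff₀ hlog2]
      push_cast at a2
      linarith
    linarith
  have hmaps : ∀ X ∈ S, Nat.log 2 (mu (v X)) ∈ range (J + 1) := by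
    intro X hX
    rw [mem_range, hJ]
    have := Nat.log_mono_right (b := 2) (hmu2 (v X))
    omega
  have hJp : (0 : ℝ) < (J : ℝ) + 1 := by positivity
  obtain ⟨j, hj, hjS⟩ := Finset.exists_le_card_fiber_of_nsmul_le_card_of_maps_to
    (s := S) (t := range (J + 1)) (f := fun X => Nat.log 2 (mu (v X))) (b := (S.card : ℝ) / ((J : ℝ) + 1))
    hmaps ⟨0, by simp⟩ (by
      rw [card_range, nsmul_eq_mul]
      push_cast
      rw [mul_div_cancel₀ _ hJp.ne'])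
  obtain ⟨T, hT⟩ : ∃ T, T = S.filter (fun X => Nat.log 2 (mu (v X)) = j) := ⟨_, rfl⟩
  rw [← hT] at hjS
  have hTS : ∀ X ∈ T, X ∈ S := by
    intro X hX
    rw [hT] at hX
    exact (Finset.mem_filter.mp hX).1
  have hTcard : c * (n : ℝ) ^ (1 - ε / 2 : ℝ) ≤ T.card := by
    have e1 : (n : ℝ) ^ (1 - ε / 2 : ℝ) * (n : ℝ) ^ (ε / 6 : ℝ) = (n : ℝ) ^ (1 - ε / 3 : ℝ) := by
      rw [← Real.rpow_add hn0]
      congr 1
      ring
    have e2 : c * (n : ℝ) ^ (1 - ε / 2 : ℝ) ≤ (S.card : ℝ) / ((J : ℝ) + 1) := by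
      rw [le_div_iff₀ hJp]
      calc c * (n : ℝ) ^ (1 - ε / 2 : ℝ) * ((J : ℝ) + 1)
          ≤ c * (n : ℝ) ^ (1 - ε / 2 : ℝ) * (n : ℝ) ^ (ε / 6 : ℝ) :=
            mul_le_mul_of_nonneg_left hJ1 (by positivity)
        _ = c * (n : ℝ) ^ (1 - ε / 3 : ℝ) := by rw [mul_assoc, e1]
        _ ≤ S.card := hS1
    exact e2.trans hjS
  have hfibT : ∀ m, (T.filter (fun X => v X = m)).card ≤ mu m := by
    intro m
    rw [hmu]
    apply card_le_card
    intro X hX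
    obtain ⟨h1, h2⟩ := Finset.mem_filter.mp hX
    exact Finset.mem_filter.mpr ⟨hTS X h1, h2⟩
  have hm0 : ∀ X ∈ T, 2 ^ j ≤ mu (v X) ∧ mu (v X) < 2 ^ (j + 1) := by
    intro X hX
    have h1 : X ∈ S := hTS X hX
    have h2 : mu (v X) ≠ 0 := by
      rw [hmu]
      simp only
      rw [← Nat.pos_iff_ne_zero, Finset.card_pos]
      exact ⟨X, Finset.mem_filter.mpr ⟨h1, rfl⟩⟩
    have h3 : Nat.log 2 (mu (v X)) = j := by
      rw [hT] at hX
      exact (Finset.mem_filter.mp hX).2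
    constructor
    · rw [← h3]
      exact Nat.pow_log_le_self 2 h2
    · rw [← h3]
      exact Nat.lt_pow_succ_log_self (by norm_num) _
  have hsumT : T.card = ∑ m ∈ T.image v, (T.filter (fun X => v X = m)).card :=
    Finset.card_eq_sum_card_image v T
  refine ⟨T.image v, 2 ^ j, ?_, ?_, ?_, ?_⟩
  · -- many values
    have h1 : (T.card : ℝ) ≤ ((T.image v).card : ℝ) * (C * (n : ℝ) ^ (1 / 2 + ε / 3 : ℝ)) := by
      rw [hsumT]
      push_cast
      rw [← nsmul_eq_mul, ← Finset.sum_const]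
      refine Finset.sum_le_sum fun m _ => ?_
      exact (Nat.cast_le.mpr (hfibT m)).trans (hmu1 m)
    have h2 := hTcard.trans h1
    have e1 : (n : ℝ) ^ (1 - ε / 2 : ℝ) =
        (n : ℝ) ^ (ε / 6 : ℝ) * (n : ℝ) ^ (1 / 2 - ε : ℝ) * (n : ℝ) ^ (1 / 2 + ε / 3 : ℝ) := by
      rw [← Real.rpow_add hn0, ← Real.rpow_add hn0]
      congr 1
      ring
    have h4 : (0 : ℝ) < (n : ℝ) ^ (1 / 2 + ε / 3 : ℝ) := Real.rpow_pos_of_pos hn0 _
    have h5 : (0 : ℝ) < (n : ℝ) ^ (1 / 2 - ε : ℝ) := Real.rpow_pos_of_pos hn0 _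
    have h6 : C ≤ c * (n : ℝ) ^ (ε / 6 : ℝ) := by
      rw [div_le_iff₀ hc] at l3
      linarith
    have h7 : C * (n : ℝ) ^ (1 / 2 - ε : ℝ) * (n : ℝ) ^ (1 / 2 + ε / 3 : ℝ) ≤
        ((T.image v).card : ℝ) * (C * (n : ℝ) ^ (1 / 2 + ε / 3 : ℝ)) := by
      refine le_trans ?_ h2
      rw [e1]
      calc C * (n : ℝ) ^ (1 / 2 - ε : ℝ) * (n : ℝ) ^ (1 / 2 + ε / 3 : ℝ)
          ≤ (c * (n : ℝ) ^ (ε / 6 : ℝ)) * (n : ℝ) ^ (1 / 2 - ε : ℝ) * (n : ℝ) ^ (1 / 2 + ε / 3 : ℝ) :=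
            mul_le_mul_of_nonneg_right (mul_le_mul_of_nonneg_right h6 h5.le) h4.le
        _ = _ := by ring
    have h8 : (n : ℝ) ^ (1 / 2 - ε : ℝ) * (C * (n : ℝ) ^ (1 / 2 + ε / 3 : ℝ)) ≤
        ((T.image v).card : ℝ) * (C * (n : ℝ) ^ (1 / 2 + ε / 3 : ℝ)) := by
      linarith
    exact le_of_mul_le_mul_right h8 (mul_pos hC h4)
  · have h1 : (T.image v) ⊆ Finset.Icc n (7 * n) := by
      intro m hm
      obtain ⟨X, hX, rfl⟩ := Finset.mem_image.mp hm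
      rw [Finset.mem_Icc]
      have h1 := hb X (hTS X hX)
      have h2 := hcast' X (hTS X hX)
      omega
    refine (Finset.card_le_card h1).trans ?_
    rw [Nat.card_Icc]
    omega
  · -- many representations
    have h1 : T.card ≤ (T.image v).card * 2 ^ (j + 1) := by
      rw [hsumT, ← smul_eq_mul]
      apply Finset.sum_le_card_nsmul
      intro m hm
      obtain ⟨X, hX, rfl⟩ := Finset.mem_image.mp hm
      exact (hfibT _).trans (hm0 X hX).2.le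
    have h2 : (T.card : ℝ) ≤ ((T.image v).card : ℝ) * ((2 ^ j : ℕ) : ℝ) * 2 := by
      have : (T.card : ℝ) ≤ (((T.image v).card * 2 ^ (j + 1) : ℕ) : ℝ) := by exact_mod_cast h1
      refine this.trans (le_of_eq ?_)
      push_cast
      ring
    have e1 : (n : ℝ) ^ (1 - ε / 2 : ℝ) = (n : ℝ) ^ (ε / 2 : ℝ) * (n : ℝ) ^ (1 - ε : ℝ) := by
      rw [← Real.rpow_add hn0]
      congr 1
      ring
    have h3 := hTcard.trans h2
    rw [e1] at h3
    have h4 : 2 ≤ c * (n : ℝ) ^ (ε / 2 : ℝ) := by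
      rw [div_le_iff₀ hc] at l4
      linarith
    have h5 : (0 : ℝ) ≤ (n : ℝ) ^ (1 - ε : ℝ) := Real.rpow_nonneg hn0.le _
    have h6 : 2 * (n : ℝ) ^ (1 - ε : ℝ) ≤ c * (n : ℝ) ^ (ε / 2 : ℝ) * (n : ℝ) ^ (1 - ε : ℝ) :=
      mul_le_mul_of_nonneg_right h4 h5
    linarith
  · intro m hm
    obtain ⟨X, hX, rfl⟩ := Finset.mem_image.mp hm
    have hXS := hTS X hX
    have h1 := hb X hXS
    have h2 := hcast' X hXS
    obtain ⟨e1, e2, e3, e4⟩ := hS2 X hXS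
    have hm1 : n ≤ v X := by omega
    have hm7 : v X ≤ 7 * n := by omega
    have hpow : ∀ j : ℕ, j ≤ 7 * n → (j : ℝ) ^ δ' ≤ (n : ℝ) ^ δ := by
      intro j hj
      have g1 : (j : ℝ) ≤ (n : ℝ) ^ (2 : ℝ) := by
        rw [Real.rpow_two]
        have : j ≤ n ^ 2 := by nlinarith
        exact_mod_cast this
      calc (j : ℝ) ^ δ' ≤ ((n : ℝ) ^ (2 : ℝ)) ^ δ' :=
            Real.rpow_le_rpow (Nat.cast_nonneg j) g1 hδ0.le
        _ = (n : ℝ) ^ (2 * δ') := by rw [← Real.rpow_mul hn0.le]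
        _ ≤ (n : ℝ) ^ δ := Real.rpow_le_rpow_of_exponent_le hn1 hδ2
    refine ⟨hm1, hm7, ?_, ?_, S.filter (fun Z => v Z = v X), ?_, ?_⟩
    · intro q hq hqm
      refine (hpow (v X) hm7).trans_lt (e2 q hq ?_)
      apply Dvd.dvd.mul_right
      rw [← h2]
      exact_mod_cast hqm
    · intro q hq hqm
      refine (hpow (v X - 2) (by omega)).trans_lt (e2 q hq ?_)
      apply Dvd.dvd.mul_left
      have h3 : ((v X - 2 : ℕ) : ℤ) = pf X - 2 := by
        rw [Nat.cast_sub (by omega), h2]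
        rfl
      rw [← h3]
      exact_mod_cast hqm
    · have := (hm0 X hX).1
      rw [hmu] at this
      exact this
    · intro Z hZ
      obtain ⟨g1, g2⟩ := Finset.mem_filter.mp hZ
      refine ⟨(hS2 Z g1).1, ?_⟩
      rw [← hcast' Z g1, g2]

end Pool.Agent.D0H23.PP
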